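import Mathlib

set_option autoImplicit false
set_option linter.unusedSectionVars false

/-!
Multigraphs as symmetric weight functions.  `RG U w r`: the multigraph `w` with vertex set `U` is an
`r`-graph.  `Col w r`: the multigraph `w` has a proper edge colouring with `r` colours.
-/

namespace Pool.Agent.Helper37.RG3

open Finset

variable {V : Type} [Fintype V] [DecidableEq V]

/-- Weight between two sets of vertices (ordered pairs). -/
def bt (w : V → V → ℕ) (A B : Finset V) : ℕ := ∑ a ∈ A, ∑ b ∈ B, w a b

/-- Size of the cut of `X`. -/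
def ct (w : V → V → ℕ) (X : Finset V) : ℕ := bt w X Xᶜ

/-- `w` is an `r`-graph with vertex set `U`. -/
structure RG (U : Finset V) (w : V → V → ℕ) (r : ℕ) : Prop where
  symm : ∀ u v, w u v = w v u
  irr : ∀ u, w u u = 0
  supp : ∀ u v, w u v ≠ 0 → u ∈ U
  deg : ∀ u ∈ U, ∑ v, w u v = r
  cut : ∀ X, X ⊆ U → Odd X.card → r ≤ ct w X

/-- The multigraph `w` has a proper edge colouring with `r` colours: `σ i u` is the other end of the
edge of colour `i` at `u` (and `u` if there is none). -/
def Col (w : V → V → ℕ) (r : ℕ) : Prop :=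
  ∃ σ : Fin r → V → V, (∀ i u, σ i (σ i u) = u) ∧
    ∀ u v, u ≠ v → (univ.filter fun i => σ i u = v).card = w u v

section bt

variable (w : V → V → ℕ)

theorem bt_union_left {A B : Finset V} (h : Disjoint A B) (C : Finset V) :
    bt w (A ∪ B) C = bt w A C + bt w B C := by
  unfold bt
  exact Finset.sum_union h

theorem bt_union_right (A : Finset V) {B C : Finset V} (h : Disjoint B C) :
    bt w A (B ∪ C) = bt w A B + bt w A C := by
  unfold bt
  rw [← Finset.sum_add_distrib]
  exact Finset.sum_congr rfl fun a _ => Finset.sum_union h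

theorem bt_empty_left (B : Finset V) : bt w ∅ B = 0 := by simp [bt]

theorem bt_empty_right (A : Finset V) : bt w A ∅ = 0 := by simp [bt]

theorem bt_comm (hs : ∀ u v, w u v = w v u) (A B : Finset V) : bt w A B = bt w B A := by
  unfold bt
  rw [Finset.sum_comm]
  exact Finset.sum_congr rfl fun b _ => Finset.sum_congr rfl fun a _ => hs a b

theorem bt_eq_zero {A B : Finset V} : bt w A B = 0 ↔ ∀ a ∈ A, ∀ b ∈ B, w a b = 0 := by
  unfold bt
  rw [Finset.sum_eq_zero_iff]
  exact forall₂_congr fun a _ => Finset.sum_eq_zero_iff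

theorem bt_singleton_left (a : V) (B : Finset V) : bt w {a} B = ∑ b ∈ B, w a b := by
  simp [bt]

theorem bt_singleton_right (A : Finset V) (b : V) : bt w A {b} = ∑ a ∈ A, w a b := by
  simp [bt]

theorem bt_pair (a b : V) : bt w {a} {b} = w a b := by simp [bt]

theorem bt_mono {A A' B B' : Finset V} (hA : A ⊆ A') (hB : B ⊆ B') : bt w A B ≤ bt w A' B' := by
  unfold bt
  refine (Finset.sum_le_sum_of_subset hA).trans ?_
  exact Finset.sum_le_sum fun a _ => Finset.sum_le_sum_of_subset hB

theorem bt_mono_w {w w' : V → V → ℕ} (h : ∀ u v, w u v ≤ w' u v) (A B : Finset V) :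
    bt w A B ≤ bt w' A B := by
  unfold bt
  exact Finset.sum_le_sum fun a _ => Finset.sum_le_sum fun b _ => h a b

theorem le_bt {A B : Finset V} {a b : V} (ha : a ∈ A) (hb : b ∈ B) : w a b ≤ bt w A B := by
  rw [← bt_pair w a b]
  exact bt_mono w (by simpa using ha) (by simpa using hb)

theorem bt_add (w w' : V → V → ℕ) (A B : Finset V) :
    bt (fun u v => w u v + w' u v) A B = bt w A B + bt w' A B := by
  unfold bt
  rw [← Finset.sum_add_distrib]
  exact Finset.sum_congr rfl fun a _ => Finset.sum_add_distrib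

theorem ct_add (w w' : V → V → ℕ) (X : Finset V) :
    ct (fun u v => w u v + w' u v) X = ct w X + ct w' X := bt_add w w' X Xᶜ

theorem bt_congr {w w' : V → V → ℕ} {A B : Finset V} (h : ∀ a ∈ A, ∀ b ∈ B, w a b = w' a b) :
    bt w A B = bt w' A B := by
  unfold bt
  exact Finset.sum_congr rfl fun a ha => Finset.sum_congr rfl fun b hb => h a ha b hb

/-- The weight inside a set is even. -/
theorem bt_self_even (hs : ∀ u v, w u v = w v u) (hi : ∀ u, w u u = 0) (A : Finset V) :
    Even (bt w A A) := by
  induction A using Finset.induction_on with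
  | empty => simp [bt_empty_left]
  | insert a A ha ih =>
    have hd : Disjoint ({a} : Finset V) A := by simpa using ha
    rw [← Finset.singleton_union, bt_union_left w hd, bt_union_right w _ hd,
      bt_union_right w _ hd, bt_pair, hi, bt_comm w hs A {a}]
    obtain ⟨k, hk⟩ := ih
    exact ⟨bt w {a} A + k, by omega⟩

/-- Uncrossing. -/
theorem submod (hs : ∀ u v, w u v = w v u) (X Y : Finset V) :
    ct w X + ct w Y = ct w (X ∩ Y) + ct w (X ∪ Y) + 2 * bt w (X \ Y) (Y \ X) := by
  set A := X ∩ Y with hA
  set B := X \ Y with hB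
  set C := Y \ X with hC
  set D := (X ∪ Y)ᶜ with hD
  have eX : X = A ∪ B := by ext v; simp [hA, hB]; tauto
  have eY : Y = A ∪ C := by ext v; simp [hA, hC]; tauto
  have eXY : X ∪ Y = A ∪ (B ∪ C) := by ext v; simp [hA, hB, hC]; tauto
  have eXc : Xᶜ = C ∪ D := by ext v; simp [hC, hD]; tauto
  have eYc : Yᶜ = B ∪ D := by ext v; simp [hB, hD]; tauto
  have eAc : Aᶜ = B ∪ (C ∪ D) := by ext v; simp [hA, hB, hC, hD]; tauto
  have dAB : Disjoint A B := by
    rw [Finset.disjoint_left]; intro v; simp [hA, hB]; tauto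
  have dAC : Disjoint A C := by
    rw [Finset.disjoint_left]; intro v; simp [hA, hC]; tauto
  have dBC : Disjoint B C := by
    rw [Finset.disjoint_left]; intro v; simp [hB, hC]; tauto
  have dBD : Disjoint B D := by
    rw [Finset.disjoint_left]; intro v; simp [hB, hD]; tauto
  have dCD : Disjoint C D := by
    rw [Finset.disjoint_left]; intro v; simp [hC, hD]; tauto
  have dABC : Disjoint A (B ∪ C) := Finset.disjoint_union_right.mpr ⟨dAB, dAC⟩
  have dBCD : Disjoint B (C ∪ D) := Finset.disjoint_union_right.mpr ⟨dBC, dBD⟩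
  have h1 : ct w X = bt w A C + bt w A D + (bt w B C + bt w B D) := by
    unfold ct
    rw [eXc]
    conv_lhs => rw [eX]
    rw [bt_union_left w dAB, bt_union_right w _ dCD, bt_union_right w _ dCD]
  have h2 : ct w Y = bt w A B + bt w A D + (bt w C B + bt w C D) := by
    unfold ct
    rw [eYc]
    conv_lhs => rw [eY]
    rw [bt_union_left w dAC, bt_union_right w _ dBD, bt_union_right w _ dBD]
  have h3 : ct w A = bt w A B + (bt w A C + bt w A D) := by
    unfold ct
    rw [eAc, bt_union_right w _ dBCD, bt_union_right w _ dCD]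
  have h4 : ct w (X ∪ Y) = bt w A D + (bt w B D + bt w C D) := by
    unfold ct
    rw [← hD, eXY, bt_union_left w dABC, bt_union_left w dBC]
  have h5 := bt_comm w hs C B
  omega

end bt

namespace RG

variable {U : Finset V} {w : V → V → ℕ} {r : ℕ}

theorem supp' (h : RG U w r) {u v : V} (huv : w u v ≠ 0) : v ∈ U :=
  h.supp v u (by rwa [h.symm v u])

theorem zero_left (h : RG U w r) {u : V} (hu : u ∉ U) (v : V) : w u v = 0 := by
  by_contra h1
  exact hu (h.supp u v h1)

theorem zero_right (h : RG U w r) (u : V) {v : V} (hv : v ∉ U) : w u v = 0 := by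
  by_contra h1
  exact hv (h.supp' h1)

/-- Weight towards sets meeting `U` in the same set. -/
theorem bt_right (h : RG U w r) (A : Finset V) {B B' : Finset V} (hB : B ∩ U = B' ∩ U) :
    bt w A B = bt w A B' := by
  have key : ∀ C : Finset V, bt w A C = bt w A (C ∩ U) := by
    intro C
    have hd : Disjoint (C ∩ U) (C \ U) := by
      rw [Finset.disjoint_left]; intro v; simp; tauto
    have he : C = (C ∩ U) ∪ (C \ U) := by ext v; simp; tauto
    conv_lhs => rw [he]
    rw [bt_union_right w _ hd]
    have : bt w A (C \ U) = 0 := by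
      rw [bt_eq_zero]
      intro a _ b hb
      exact h.zero_right a (by simpa using (Finset.mem_sdiff.mp hb).2)
    omega
  rw [key B, key B', hB]

theorem ct_eq (h : RG U w r) (X : Finset V) : ct w X = bt w X (U \ X) := by
  unfold ct
  refine h.bt_right X ?_
  ext v; simp; tauto

theorem bt_deg (h : RG U w r) {X : Finset V} (hX : X ⊆ U) : bt w X univ = r * X.card := by
  unfold bt
  rw [Finset.sum_congr rfl (fun u hu => h.deg u (hX hu)), Finset.sum_const, smul_eq_mul, mul_comm]

theorem bt_deg' (h : RG U w r) {X : Finset V} (hX : X ⊆ U) : bt w X U = r * X.card := by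
  rw [← h.bt_deg hX]
  refine h.bt_right X ?_
  ext v; simp

/-- Degree sum of a set. -/
theorem deg_sum (h : RG U w r) {X : Finset V} (hX : X ⊆ U) : bt w X X + ct w X = r * X.card := by
  rw [← h.bt_deg hX]
  unfold ct
  rw [← bt_union_right w X disjoint_compl_right]
  congr 1
  ext v; simp

theorem inn_even (h : RG U w r) (X : Finset V) : Even (bt w X X) :=
  bt_self_even w h.symm h.irr X

theorem ct_parity (h : RG U w r) {X : Finset V} (hX : X ⊆ U) :
    ct w X % 2 = (r * X.card) % 2 := by
  obtain ⟨k, hk⟩ := h.inn_even X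
  have := h.deg_sum hX
  omega

theorem ct_odd_parity (h : RG U w r) {X : Finset V} (hX : X ⊆ U) (ho : Odd X.card) :
    ct w X % 2 = r % 2 := by
  rw [h.ct_parity hX]
  obtain ⟨k, hk⟩ := ho
  rw [hk, mul_add, mul_one, ← mul_assoc, mul_comm r 2, mul_assoc]
  omega

theorem ct_compl (h : RG U w r) {X : Finset V} (hX : X ⊆ U) : ct w (U \ X) = ct w X := by
  rw [h.ct_eq X, h.ct_eq (U \ X), bt_comm w h.symm, Finset.sdiff_sdiff_eq_self hX]

theorem even_card (h : RG U w r) (hr : 0 < r) : Even U.card := by
  by_contra hc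
  rw [Nat.not_even_iff_odd] at hc
  have h1 := h.cut U (Finset.Subset.refl U) hc
  rw [h.ct_eq U, Finset.sdiff_self, bt_empty_right] at h1
  omega

theorem ct_singleton (h : RG U w r) {u : V} (hu : u ∈ U) : ct w {u} = r := by
  have h1 := h.deg_sum (X := {u}) (by simpa using hu)
  rw [bt_pair, h.irr, Finset.card_singleton] at h1
  omega

/-- The weight of a vertex towards a set is at most `r`. -/
theorem bt_single_le (h : RG U w r) {u : V} (hu : u ∈ U) (B : Finset V) : bt w {u} B ≤ r := by
  have h1 := h.bt_deg (X := {u}) (by simpa using hu)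
  rw [Finset.card_singleton, mul_one] at h1
  rw [← h1]
  exact bt_mono w (Finset.Subset.refl _) (Finset.subset_univ _)

end RG

/-- Relation of being joined. -/
def Adj (w : V → V → ℕ) : V → V → Prop := fun u v => w u v ≠ 0

end Pool.Agent.Helper37.RG3
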