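import Mathlib
import Pool.Agent.Helper37.RG3.Basic

set_option autoImplicit false
set_option linter.unusedSectionVars false

/-!
Basic operations on colourings.
-/

namespace Pool.Agent.Helper37.RG3

open Finset

variable {V : Type} [Fintype V] [DecidableEq V]

/-- Two families with equal fibre sizes differ by a permutation. -/
theorem perm_of_fibers {r : ℕ} {α : Type} [DecidableEq α] (f g : Fin r → α)
    (h : ∀ a, (univ.filter fun i => f i = a).card = (univ.filter fun i => g i = a).card) :
    ∃ π : Equiv.Perm (Fin r), ∀ i, g (π i) = f i := by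
  have e : ∀ a, {i // f i = a} ≃ {i // g i = a} := fun a => by
    refine Fintype.equivOfCardEq ?_
    rw [Fintype.card_subtype, Fintype.card_subtype]
    exact h a
  exact ⟨Equiv.ofFiberEquiv e, fun i => Equiv.ofFiberEquiv_map e i⟩

/-- Two colourings which never use the same colour at the same vertex combine. -/
theorem splice {w1 w2 : V → V → ℕ} {r : ℕ} (σ τ : Fin r → V → V)
    (hσ : ∀ i u, σ i (σ i u) = u) (hτ : ∀ i u, τ i (τ i u) = u)
    (h1 : ∀ u v, u ≠ v → (univ.filter fun i => σ i u = v).card = w1 u v)
    (h2 : ∀ u v, u ≠ v → (univ.filter fun i => τ i u = v).card = w2 u v)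
    (hex : ∀ i u, σ i u = u ∨ τ i u = u) : Col (fun u v => w1 u v + w2 u v) r := by
  refine ⟨fun i u => if σ i u = u then τ i u else σ i u, ?_, ?_⟩
  · intro i u
    by_cases hu : σ i u = u
    · simp only [hu, if_true]
      by_cases hv : σ i (τ i u) = τ i u
      · simp only [hv, if_true]
        exact hτ i u
      · rcases hex i (τ i u) with h | h
        · exact absurd h hv
        · rw [hτ i u] at h
          exfalso
          apply hv
          rw [← h]
          exact hu
    · simp only [hu, if_false]
      have : σ i (σ i u) ≠ σ i u := by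
        intro h
        rw [hσ i u] at h
        exact hu h.symm
      simp only [this, if_false]
      exact hσ i u
  · intro u v huv
    show (univ.filter fun i => (if σ i u = u then τ i u else σ i u) = v).card = w1 u v + w2 u v
    rw [← h1 u v huv, ← h2 u v huv, ← Finset.card_union_of_disjoint]
    · congr 1
      ext i
      simp only [mem_filter, mem_univ, true_and, mem_union]
      by_cases hu : σ i u = u
      · simp only [hu, if_true]
        constructor
        · intro h
          exact Or.inr h
        · rintro (h | h)
          · exact absurd h huv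
          · exact h
      · simp only [hu, if_false]
        constructor
        · intro h
          exact Or.inl h
        · rintro (h | h)
          · exact h
          · rcases hex i u with h' | h'
            · exact absurd h' hu
            · exact absurd (h'.symm.trans h) huv
    · rw [Finset.disjoint_left]
      intro i hi hi'
      simp only [mem_filter, mem_univ, true_and] at hi hi'
      rcases hex i u with h | h
      · exact huv (h.symm.trans hi)
      · exact huv (h.symm.trans hi')

/-- The degree of a vertex in a coloured multigraph. -/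
theorem col_deg {w : V → V → ℕ} {r : ℕ} {σ : Fin r → V → V}
    (h : ∀ u v, u ≠ v → (univ.filter fun i => σ i u = v).card = w u v) (hi : ∀ u, w u u = 0)
    (u : V) : (univ.filter fun i => σ i u ≠ u).card = ∑ v, w u v := by
  have h1 : (univ.filter fun i => σ i u ≠ u)
      = (univ.erase u).biUnion fun v => univ.filter fun i => σ i u = v := by
    ext i
    simp
  rw [h1, Finset.card_biUnion]
  · rw [← Finset.add_sum_erase univ (fun v => w u v) (mem_univ u), hi, zero_add]
    refine Finset.sum_congr rfl fun v hv => ?_
    exact h u v (Finset.ne_of_mem_erase hv).symm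
  · intro v _ v' _ hne
    rw [Function.onFun, Finset.disjoint_left]
    intro i hi hi'
    simp only [mem_filter, mem_univ, true_and] at hi hi'
    exact hne (hi.symm.trans hi')

/-- A submultigraph of a coloured multigraph is coloured. -/
theorem Col.sub {w w' : V → V → ℕ} {r : ℕ} (hc : Col w' r) (hle : ∀ u v, w u v ≤ w' u v)
    (hs : ∀ u v, w u v = w v u) : Col w r := by
  classical
  obtain ⟨σ, hσ, h⟩ := hc
  -- choose, for every unordered pair, a set of colours
  have hex : ∀ p : Sym2 V, ∃ I : Finset (Fin r), ∀ u v, p = s(u, v) → u ≠ v →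
      I.card = w u v ∧ ∀ i ∈ I, σ i u = v := by
    intro p
    induction p with
    | _ x y =>
      by_cases hxy : x = y
      · refine ⟨∅, ?_⟩
        intro u v huv hne
        subst hxy
        rw [Sym2.eq_iff] at huv
        rcases huv with ⟨h1, h2⟩ | ⟨h1, h2⟩
        · exact absurd (h1.symm.trans h2) hne
        · exact absurd (h2.symm.trans h1) hne
      · obtain ⟨I, hI, hIc⟩ := Finset.exists_subset_card_eq
          (s := univ.filter fun i => σ i x = y) (n := w x y) (by
            rw [h x y hxy]
            exact hle x y)
        refine ⟨I, ?_⟩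
        intro u v huv hne
        rw [Sym2.eq_iff] at huv
        have key : ∀ i ∈ I, σ i x = y := by
          intro i hi
          have := hI hi
          simpa using this
        rcases huv with ⟨rfl, rfl⟩ | ⟨rfl, rfl⟩
        · exact ⟨hIc, key⟩
        · refine ⟨by rw [hIc, hs], ?_⟩
          intro i hi
          rw [← key i hi, hσ]
  choose I hI using hex
  refine ⟨fun i u => if i ∈ I s(u, σ i u) then σ i u else u, ?_, ?_⟩
  · intro i u
    by_cases hu : i ∈ I s(u, σ i u)
    · simp only [hu, if_true]
      rw [hσ, Sym2.eq_swap]
      simp only [hu, if_true]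
    · simp only [hu, if_false]
  · intro u v huv
    rw [← (hI s(u, v) u v rfl huv).1]
    congr 1
    ext i
    simp only [mem_filter, mem_univ, true_and]
    constructor
    · intro hi
      by_cases hu : i ∈ I s(u, σ i u)
      · simp only [hu, if_true] at hi
        rw [hi] at hu
        exact hu
      · simp only [hu, if_false] at hi
        exact absurd hi huv
    · intro hi
      have h1 := (hI s(u, v) u v rfl huv).2 i hi
      rw [h1]
      simp only [hi, if_true]

/-! ### perfect matchings -/

/-- `m` is a perfect matching of `w` on `U`. -/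
structure PM (U : Finset V) (w : V → V → ℕ) (m : V → V) : Prop where
  invol : ∀ u, m (m u) = u
  out : ∀ u, u ∉ U → m u = u
  adj : ∀ u ∈ U, w u (m u) ≠ 0

/-- Remove a perfect matching. -/
def rem (w : V → V → ℕ) (m : V → V) : V → V → ℕ :=
  fun u v => if u ≠ v ∧ m u = v then w u v - 1 else w u v

/-- Number of edges of the matching which leave `X`. -/
def cr (m : V → V) (X : Finset V) : ℕ := (X.filter fun x => m x ∉ X).card

theorem PM.ne {U : Finset V} {w : V → V → ℕ} {m : V → V} {r : ℕ} (hm : PM U w m)
    (h : RG U w r) {u : V} (hu : u ∈ U) : m u ≠ u := by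
  intro he
  have := hm.adj u hu
  rw [he, h.irr] at this
  exact this rfl

theorem PM.mem {U : Finset V} {w : V → V → ℕ} {m : V → V} {r : ℕ} (hm : PM U w m)
    (h : RG U w r) {u : V} (hu : u ∈ U) : m u ∈ U := h.supp' (hm.adj u hu)

theorem rem_symm {w : V → V → ℕ} {m : V → V} (hs : ∀ u v, w u v = w v u)
    (hm : ∀ u, m (m u) = u) (u v : V) : rem w m u v = rem w m v u := by
  unfold rem
  have : (u ≠ v ∧ m u = v) ↔ (v ≠ u ∧ m v = u) := by
    constructor
    · rintro ⟨h1, rfl⟩
      exact ⟨h1.symm, hm u⟩
    · rintro ⟨h1, rfl⟩
      exact ⟨h1.symm, hm v⟩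
  simp only [this, hs u v]

theorem rem_add {U : Finset V} {w : V → V → ℕ} {m : V → V} (hm : PM U w m) (u v : V) :
    w u v = rem w m u v + (if u ≠ v ∧ m u = v then 1 else 0) := by
  unfold rem
  split_ifs with h
  · have : w u v ≠ 0 := by
      obtain ⟨h1, rfl⟩ := h
      apply hm.adj u
      by_contra hu
      exact h1 (hm.out u hu).symm
    omega
  · rfl

theorem Col.of_rem {U : Finset V} {w : V → V → ℕ} {m : V → V} {r : ℕ} (hm : PM U w m)
    (hc : Col (rem w m) r) : Col w (r + 1) := by
  obtain ⟨σ, hσ, h⟩ := hc
  refine ⟨Fin.cons m σ, ?_, ?_⟩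
  · intro i u
    refine Fin.cases ?_ (fun i => ?_) i
    · simp only [Fin.cons_zero]
      exact hm.invol u
    · simp only [Fin.cons_succ]
      exact hσ i u
  · intro u v huv
    rw [rem_add hm u v, ← h u v huv, Finset.card_filter, Fin.sum_univ_succ, Finset.card_filter,
      add_comm]
    simp only [Fin.cons_zero, Fin.cons_succ]
    by_cases hmu : m u = v
    · simp [hmu, huv]
    · simp [hmu]

theorem ct_rem {U : Finset V} {w : V → V → ℕ} {m : V → V} (hm : PM U w m) (X : Finset V) :
    ct w X = ct (rem w m) X + cr m X := by
  have h1 : ct w X = ct (fun u v => rem w m u v + (if u ≠ v ∧ m u = v then 1 else 0)) X := by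
    unfold ct
    exact bt_congr fun a _ b _ => rem_add hm a b
  rw [h1, ct_add]
  congr 1
  unfold ct bt cr
  rw [Finset.card_filter]
  refine Finset.sum_congr rfl fun x hx => ?_
  by_cases hmx : m x ∈ X
  · rw [if_neg (by simpa using hmx)]
    refine Finset.sum_eq_zero fun v hv => if_neg ?_
    rintro ⟨_, rfl⟩
    rw [Finset.mem_compl] at hv
    exact hv hmx
  · rw [if_pos hmx, Finset.sum_eq_single_of_mem (m x) (by simpa using hmx)]
    · refine if_pos ⟨?_, rfl⟩
      intro h
      rw [← h] at hmx
      exact hmx hx
    · intro v _ hv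
      refine if_neg ?_
      rintro ⟨_, rfl⟩
      exact hv rfl

/-- Removing a matching from an `r + 1`-graph. -/
theorem RG.rem {U : Finset V} {w : V → V → ℕ} {m : V → V} {r : ℕ} (h : RG U w (r + 1))
    (hm : PM U w m) (hX : ∀ X, X ⊆ U → Odd X.card → r + cr m X ≤ ct w X) :
    RG U (rem w m) r where
  symm := rem_symm h.symm hm.invol
  irr := by
    intro u
    have h1 := h.irr u
    rw [rem_add hm u u] at h1
    omega
  supp := by
    intro u v huv
    apply h.supp u v
    rw [rem_add hm u v]
    omega
  deg := by
    intro u hu
    have h1 := h.deg u hu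
    rw [Finset.sum_congr rfl (fun v _ => rem_add hm u v), Finset.sum_add_distrib] at h1
    have h2 : ∑ v, (if u ≠ v ∧ m u = v then 1 else 0) = 1 := by
      rw [Finset.sum_eq_single_of_mem (m u) (mem_univ _)]
      · rw [if_pos]
        exact ⟨(hm.ne h hu).symm, rfl⟩
      · intro v _ hv
        rw [if_neg]
        rintro ⟨_, rfl⟩
        exact hv rfl
    omega
  cut := by
    intro X hXU ho
    have h1 := ct_rem hm X
    have h2 := hX X hXU ho
    omega

/-- parity of the number of crossing matching edges -/
theorem cr_parity {U : Finset V} {w : V → V → ℕ} {m : V → V} {r : ℕ} (h : RG U w r)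
    (hm : PM U w m) {X : Finset V} (hX : X ⊆ U) : cr m X % 2 = X.card % 2 := by
  have h1 : (X.filter fun x => m x ∉ X).card + (X.filter fun x => ¬ (m x ∉ X)).card = X.card :=
    Finset.card_filter_add_card_filter_not (s := X) (fun x => m x ∉ X)
  have h2 : Even (X.filter fun x => ¬ (m x ∉ X)).card := by
    rw [← ZMod.natCast_eq_zero_iff_even, Finset.card_eq_sum_ones, Nat.cast_sum]
    refine Finset.sum_involution (fun x _ => m x) ?_ ?_ ?_ ?_
    · intro x _
      decide
    · intro x hx _
      rw [mem_filter] at hx
      exact hm.ne h (hX hx.1)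
    · intro x hx
      rw [mem_filter] at hx ⊢
      rw [hm.invol]
      exact ⟨by simpa using hx.2, by simpa using hx.1⟩
    · intro x _
      exact hm.invol x
  obtain ⟨k, hk⟩ := h2
  unfold cr
  omega

theorem cr_le (m : V → V) (X : Finset V) : cr m X ≤ X.card := Finset.card_filter_le _ _

theorem cr_compl {U : Finset V} {w : V → V → ℕ} {m : V → V} {r : ℕ} (h : RG U w r)
    (hm : PM U w m) {X : Finset V} (hX : X ⊆ U) : cr m (U \ X) = cr m X := by
  unfold cr
  refine Finset.card_bij' (fun x _ => m x) (fun x _ => m x) ?_ ?_ ?_ ?_
  · intro x hx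
    simp only [mem_filter, mem_sdiff] at hx ⊢
    rw [hm.invol]
    have := hm.mem h hx.1.1
    tauto
  · intro x hx
    simp only [mem_filter, mem_sdiff] at hx ⊢
    rw [hm.invol]
    have h1 := hX hx.1
    have := hm.mem h h1
    tauto
  · intro x _
    exact hm.invol x
  · intro x _
    exact hm.invol x

end Pool.Agent.Helper37.RG3
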