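import Mathlib
import Pool.Agent.Helper37.RG3.ColB

set_option autoImplicit false
set_option linter.unusedSectionVars false

/-!
Connected sets, neighbourhoods and minors for a symmetric relation.
-/

namespace Pool.Agent.Helper37.RG3

open Finset

variable {V : Type} [Fintype V] [DecidableEq V]

/-- `S` is nonempty and connected in the graph `R`. -/
def Con (R : V → V → Prop) (S : Finset V) : Prop :=
  S.Nonempty ∧ ∀ P, P ⊆ S → P.Nonempty → P ≠ S → ∃ p ∈ P, ∃ q ∈ S \ P, R p q

open Classical in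
/-- Neighbourhood of a set of vertices (disjoint from the set). -/
noncomputable def nb (R : V → V → Prop) (S : Finset V) : Finset V :=
  univ.filter fun v => v ∉ S ∧ ∃ s ∈ S, R s v

/-- There is an edge between the two sets. -/
def Tch (R : V → V → Prop) (A B : Finset V) : Prop := ∃ a ∈ A, ∃ b ∈ B, R a b

/-- `(R', U')` is a minor of `(R, U)`. -/
def Mnr (R' : V → V → Prop) (U' : Finset V) (R : V → V → Prop) (U : Finset V) : Prop :=
  ∃ B : V → Finset V, (∀ u ∈ U', Con R (B u) ∧ B u ⊆ U) ∧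
    (∀ u ∈ U', ∀ v ∈ U', u ≠ v → Disjoint (B u) (B v)) ∧
    (∀ u ∈ U', ∀ v ∈ U', R' u v → Tch R (B u) (B v))

/-- The Petersen graph is a minor of `(R, U)`. -/
def PetM (R : V → V → Prop) (U : Finset V) : Prop :=
  ∃ f : {s : Finset (Fin 5) // s.card = 2} → Finset V,
    (∀ i, Con R (f i) ∧ f i ⊆ U) ∧ (∀ i j, i ≠ j → Disjoint (f i) (f j)) ∧
    (∀ i j, Disjoint i.1 j.1 → Tch R (f i) (f j))

theorem mem_nb {R : V → V → Prop} {S : Finset V} {v : V} :
    v ∈ nb R S ↔ v ∉ S ∧ ∃ s ∈ S, R s v := by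
  unfold nb
  simp

theorem Tch.symm {R : V → V → Prop} (hR : ∀ u v, R u v → R v u) {A B : Finset V}
    (h : Tch R A B) : Tch R B A := by
  obtain ⟨a, ha, b, hb, hab⟩ := h
  exact ⟨b, hb, a, ha, hR _ _ hab⟩

theorem Tch.mono {R : V → V → Prop} {A A' B B' : Finset V} (hA : A ⊆ A') (hB : B ⊆ B')
    (h : Tch R A B) : Tch R A' B' := by
  obtain ⟨a, ha, b, hb, hab⟩ := h
  exact ⟨a, hA ha, b, hB hb, hab⟩

theorem Con.single (R : V → V → Prop) (v : V) : Con R {v} := by
  refine ⟨Finset.singleton_nonempty v, ?_⟩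
  intro P hP hne hPS
  exact absurd ((Finset.Nonempty.subset_singleton_iff hne).mp hP) hPS

theorem Con.mono_rel {R R' : V → V → Prop} (h : ∀ u v, R u v → R' u v) {S : Finset V}
    (hS : Con R S) : Con R' S := by
  refine ⟨hS.1, ?_⟩
  intro P h1 h2 h3
  obtain ⟨p, hp, q, hq, hpq⟩ := hS.2 P h1 h2 h3
  exact ⟨p, hp, q, hq, h p q hpq⟩

/-- The union of two touching connected sets is connected. -/
theorem Con.union {R : V → V → Prop} (hR : ∀ u v, R u v → R v u) {A B : Finset V}
    (hA : Con R A) (hB : Con R B) (h : Tch R A B ∨ (A ∩ B).Nonempty) : Con R (A ∪ B) := by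
  refine ⟨hA.1.mono Finset.subset_union_left, ?_⟩
  intro P hP hne hPS
  by_cases h1 : (P ∩ A).Nonempty ∧ P ∩ A ≠ A
  · obtain ⟨p, hp, q, hq, hpq⟩ := hA.2 (P ∩ A) Finset.inter_subset_right h1.1 h1.2
    simp only [mem_inter, mem_sdiff] at hp hq
    exact ⟨p, hp.1, q, by simp; tauto, hpq⟩
  · by_cases h2 : (P ∩ B).Nonempty ∧ P ∩ B ≠ B
    · obtain ⟨p, hp, q, hq, hpq⟩ := hB.2 (P ∩ B) Finset.inter_subset_right h2.1 h2.2
      simp only [mem_inter, mem_sdiff] at hp hq
      exact ⟨p, hp.1, q, by simp; tauto, hpq⟩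
    · -- each of A, B is contained in P or disjoint from P
      have k1 : A ⊆ P ∨ ∀ a ∈ A, a ∉ P := by
        by_cases h3 : (P ∩ A).Nonempty
        · left
          have h4 : P ∩ A = A := by
            by_contra h5
            exact h1 ⟨h3, h5⟩
          exact Finset.inter_eq_right.mp h4
        · right
          intro a ha haP
          exact h3 ⟨a, by simp [ha, haP]⟩
      have k2 : B ⊆ P ∨ ∀ b ∈ B, b ∉ P := by
        by_cases h3 : (P ∩ B).Nonempty
        · left
          have h4 : P ∩ B = B := by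
            by_contra h5
            exact h2 ⟨h3, h5⟩
          exact Finset.inter_eq_right.mp h4
        · right
          intro a ha haP
          exact h3 ⟨a, by simp [ha, haP]⟩
      obtain ⟨x, hx⟩ := hne
      have hxAB := hP hx
      rw [mem_union] at hxAB
      rcases k1 with k1 | k1 <;> rcases k2 with k2 | k2
      · exact absurd (Finset.Subset.antisymm hP (Finset.union_subset k1 k2)) hPS
      · rcases h with h | ⟨y, hy⟩
        · obtain ⟨a, ha, b, hb, hab⟩ := h
          exact ⟨a, k1 ha, b, by simp [hb, k2 b hb], hab⟩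
        · rw [mem_inter] at hy
          exact absurd (k1 hy.1) (k2 y hy.2)
      · rcases h with h | ⟨y, hy⟩
        · obtain ⟨a, ha, b, hb, hab⟩ := h
          exact ⟨b, k2 hb, a, by simp [ha, k1 a ha], hR _ _ hab⟩
        · rw [mem_inter] at hy
          exact absurd (k2 hy.2) (k1 y hy.1)
      · rcases hxAB with h' | h'
        · exact absurd hx (k1 x h')
        · exact absurd hx (k2 x h')

/-- A connected set which avoids the neighbourhood of `K` and meets `K` lies in `K`. -/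
theorem Con.subset_of_avoid {R : V → V → Prop} {S K : Finset V}
    (hS : Con R S) (h1 : (S ∩ K).Nonempty) (h2 : ∀ v ∈ nb R K, v ∉ S) : S ⊆ K := by
  by_contra hc
  obtain ⟨p, hp, q, hq, hpq⟩ := hS.2 (S ∩ K) Finset.inter_subset_left h1 (by
    intro h
    exact hc (Finset.inter_eq_left.mp h))
  simp only [mem_inter, mem_sdiff] at hp hq
  refine h2 q ?_ hq.1
  rw [mem_nb]
  exact ⟨by tauto, p, hp.2, hpq⟩

/-- Union of connected sets indexed by a connected set. -/
theorem Con.biUnion {R R' : V → V → Prop} (hR : ∀ u v, R u v → R v u)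
    {B : V → Finset V} {S : Finset V} (hS : Con R' S) (hB : ∀ u ∈ S, Con R (B u))
    (hadj : ∀ u ∈ S, ∀ v ∈ S, R' u v → Tch R (B u) (B v)) : Con R (S.biUnion B) := by
  -- grow from a single vertex
  obtain ⟨x, hx⟩ := hS.1
  have key : ∀ n, 1 ≤ n → n ≤ S.card → ∃ P ⊆ S, P.card = n ∧ Con R (P.biUnion B) := by
    intro n hn
    induction n, hn using Nat.le_induction with
    | base =>
      intro _
      exact ⟨{x}, by simpa using hx, by simp, by simpa using hB x hx⟩
    | succ n hn ih =>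
      intro hle
      obtain ⟨P, hP, hcard, hcon⟩ := ih (by omega)
      obtain ⟨p, hp, q, hq, hpq⟩ := hS.2 P hP (Finset.card_pos.mp (by omega)) (by
        intro h
        rw [h] at hcard
        omega)
      rw [mem_sdiff] at hq
      refine ⟨insert q P, Finset.insert_subset hq.1 hP, ?_, ?_⟩
      · rw [Finset.card_insert_of_notMem hq.2, hcard]
      · rw [Finset.biUnion_insert]
        refine Con.union hR (hB q hq.1) hcon (Or.inl ?_)
        refine Tch.symm hR (Tch.mono ?_ (Finset.Subset.refl _) (hadj p (hP hp) q hq.1 hpq))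
        exact Finset.subset_biUnion_of_mem B hp
  obtain ⟨P, hP, hcard, hcon⟩ := key S.card (Finset.card_pos.mpr hS.1) le_rfl
  rw [Finset.eq_of_subset_of_card_le hP hcard.ge] at hcon
  exact hcon

theorem Mnr.refl (R : V → V → Prop) (U : Finset V) : Mnr R U R U := by
  refine ⟨fun u => {u}, ?_, ?_, ?_⟩
  · intro u hu
    exact ⟨Con.single R u, by simpa using hu⟩
  · intro u _ v _ huv
    simpa using huv
  · intro u _ v _ huv
    exact ⟨u, by simp, v, by simp, huv⟩

/-- Subgraphs are minors. -/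
theorem Mnr.of_le {R R' : V → V → Prop} {U U' : Finset V} (hU : U' ⊆ U)
    (h : ∀ u ∈ U', ∀ v ∈ U', R' u v → R u v) : Mnr R' U' R U := by
  refine ⟨fun u => {u}, ?_, ?_, ?_⟩
  · intro u hu
    exact ⟨Con.single R u, by simpa using hU hu⟩
  · intro u _ v _ huv
    simpa using huv
  · intro u hu v hv huv
    exact ⟨u, by simp, v, by simp, h u hu v hv huv⟩

theorem Mnr.trans {R₀ R₁ R₂ : V → V → Prop} {U₀ U₁ U₂ : Finset V}
    (hR : ∀ u v, R₂ u v → R₂ v u) (h₀ : Mnr R₀ U₀ R₁ U₁) (h₁ : Mnr R₁ U₁ R₂ U₂) :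
    Mnr R₀ U₀ R₂ U₂ := by
  obtain ⟨B, hB1, hB2, hB3⟩ := h₀
  obtain ⟨C, hC1, hC2, hC3⟩ := h₁
  refine ⟨fun u => (B u).biUnion C, ?_, ?_, ?_⟩
  · intro u hu
    refine ⟨Con.biUnion hR (hB1 u hu).1 (fun v hv => (hC1 v ((hB1 u hu).2 hv)).1) ?_, ?_⟩
    · intro v hv v' hv' h
      exact hC3 v ((hB1 u hu).2 hv) v' ((hB1 u hu).2 hv') h
    · rw [Finset.biUnion_subset]
      intro v hv
      exact (hC1 v ((hB1 u hu).2 hv)).2
  · intro u hu v hv huv
    rw [Finset.disjoint_biUnion_left]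
    intro x hx
    rw [Finset.disjoint_biUnion_right]
    intro y hy
    refine hC2 x ((hB1 u hu).2 hx) y ((hB1 v hv).2 hy) ?_
    rintro rfl
    exact Finset.disjoint_left.mp (hB2 u hu v hv huv) hx hy
  · intro u hu v hv huv
    obtain ⟨x, hx, y, hy, hxy⟩ := hB3 u hu v hv huv
    exact Tch.mono (Finset.subset_biUnion_of_mem C hx) (Finset.subset_biUnion_of_mem C hy)
      (hC3 x ((hB1 u hu).2 hx) y ((hB1 v hv).2 hy) hxy)

theorem PetM.of_mnr {R R' : V → V → Prop} {U U' : Finset V} (hR : ∀ u v, R u v → R v u)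
    (h : Mnr R' U' R U) (hp : PetM R' U') : PetM R U := by
  obtain ⟨f, hf1, hf2, hf3⟩ := hp
  obtain ⟨C, hC1, hC2, hC3⟩ := h
  refine ⟨fun i => (f i).biUnion C, ?_, ?_, ?_⟩
  · intro i
    refine ⟨Con.biUnion hR (hf1 i).1 (fun v hv => (hC1 v ((hf1 i).2 hv)).1) ?_, ?_⟩
    · intro v hv v' hv' h
      exact hC3 v ((hf1 i).2 hv) v' ((hf1 i).2 hv') h
    · rw [Finset.biUnion_subset]
      intro v hv
      exact (hC1 v ((hf1 i).2 hv)).2
  · intro i j hij
    rw [Finset.disjoint_biUnion_left]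
    intro x hx
    rw [Finset.disjoint_biUnion_right]
    intro y hy
    refine hC2 x ((hf1 i).2 hx) y ((hf1 j).2 hy) ?_
    rintro rfl
    exact Finset.disjoint_left.mp (hf2 i j hij) hx hy
  · intro i j hij
    obtain ⟨x, hx, y, hy, hxy⟩ := hf3 i j hij
    exact Tch.mono (Finset.subset_biUnion_of_mem C hx) (Finset.subset_biUnion_of_mem C hy)
      (hC3 x ((hf1 i).2 hx) y ((hf1 j).2 hy) hxy)

end Pool.Agent.Helper37.RG3
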