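import Mathlib
import Pool.Agent.Helper37.RG3.Conn

set_option autoImplicit false
set_option linter.unusedSectionVars false

/-!
The parts of the proof, as propositions.
-/

namespace Pool.Agent.Helper37.RG3

open Finset

section defs

variable {V : Type} [Fintype V] [DecidableEq V]

/-- the edges with an end in `X` -/
def tch (w : V → V → ℕ) (X : Finset V) : V → V → ℕ := fun u v => if u ∈ X ∨ v ∈ X then w u v else 0

/-- the edges without an end in `X` -/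
def del (w : V → V → ℕ) (X : Finset V) : V → V → ℕ := fun u v => if u ∈ X ∨ v ∈ X then 0 else w u v

/-- `n` parallel edges between `a` and `b` -/
def edg (a b : V) (n : ℕ) : V → V → ℕ :=
  fun u v => if (u = a ∧ v = b) ∨ (u = b ∧ v = a) then n else 0

/-- contraction of the complement of `X` to the vertex `y₀ ∉ X` -/
def cq (w : V → V → ℕ) (X : Finset V) (y₀ : V) : V → V → ℕ := fun u v =>
  if u ∈ X ∧ v ∈ X then w u v
  else if u ∈ X ∧ v = y₀ then bt w {u} Xᶜ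
  else if u = y₀ ∧ v ∈ X then bt w {v} Xᶜ
  else 0

/-- `U` is split into `X`, `Y` and the three vertices `a, b, c`; there are no edges between `X` and
`Y` -/
structure Sep (U : Finset V) (w : V → V → ℕ) (X Y : Finset V) (a b c : V) : Prop where
  ab : a ≠ b
  ac : a ≠ c
  bc : b ≠ c
  un : U = X ∪ Y ∪ {a, b, c}
  xy : Disjoint X Y
  aX : a ∉ X
  bX : b ∉ X
  cX : c ∉ X
  aY : a ∉ Y
  bY : b ∉ Y
  cY : c ∉ Y
  zero : ∀ x ∈ X, ∀ y ∈ Y, w x y = 0

/-- tree decomposition with bags of size at most `k` and adhesion at most `l` -/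
structure TD {ι : Type} (T : SimpleGraph ι) (β : ι → Finset V) (R : V → V → Prop) (U : Finset V)
    (k l : ℕ) : Prop where
  tree : T.IsTree
  sub : ∀ t, β t ⊆ U
  cover : ∀ v ∈ U, ∃ t, v ∈ β t
  edge : ∀ u v, R u v → ∃ t, u ∈ β t ∧ v ∈ β t
  conn : ∀ v, (T.induce {t | v ∈ β t}).Preconnected
  bag : ∀ t, (β t).card ≤ k
  adh : ∀ s t, T.Adj s t → (β s ∩ β t).card ≤ l

/-- multiplicities of a multigraph given by its ends -/
noncomputable def wt {E : Type} [Fintype E] (ends : E → Sym2 V) (u v : V) : ℕ :=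
  by classical exact (univ.filter fun e => ends e = s(u, v)).card

end defs

/-- gluing along three vertices -/
def GL3 : Prop := ∀ (V : Type) [Fintype V] [DecidableEq V] (U X Y : Finset V) (w : V → V → ℕ)
  (r : ℕ) (a b c : V), RG U w r → 0 < r → Sep U w X Y a b c →
  Col (tch w X) r → Col (del w X) r → Col w r

/-- the gadget for a side with an even number of vertices -/
def GEV : Prop := ∀ (V : Type) [Fintype V] [DecidableEq V] (U X Y : Finset V) (w : V → V → ℕ)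
  (r : ℕ) (a b c : V), RG U w r → 0 < r → Sep U w X Y a b c → Even X.card →
  ∃ n₁ n₂ n₃ : ℕ, RG (U \ X)
    (fun u v => del w X u v + (edg a b n₁ u v + edg a c n₂ u v + edg b c n₃ u v)) r

/-- the gadget for a side with an odd number of vertices -/
def GOD : Prop := ∀ (V : Type) [Fintype V] [DecidableEq V] (U X Y : Finset V) (w : V → V → ℕ)
  (r : ℕ) (a b c x₀ : V), RG U w r → 0 < r → Sep U w X Y a b c → Odd X.card → x₀ ∈ X →
  ∃ n₁ n₂ n₃ n₄ : ℕ, RG (insert x₀ (U \ X))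
    (fun u v => del w X u v +
      (edg x₀ a n₁ u v + edg x₀ b n₂ u v + edg x₀ c n₃ u v + edg b c n₄ u v)) r

/-- contraction of one side of a tight cut -/
def TRG : Prop := ∀ (V : Type) [Fintype V] [DecidableEq V] (U X : Finset V) (w : V → V → ℕ)
  (r : ℕ) (y₀ : V), RG U w r → X ⊆ U → Odd X.card → ct w X = r → y₀ ∉ X →
  RG (insert y₀ X) (cq w X y₀) r

/-- gluing along a tight cut -/
def TCO : Prop := ∀ (V : Type) [Fintype V] [DecidableEq V] (U X : Finset V) (w : V → V → ℕ)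
  (r : ℕ) (x₀ y₀ : V), RG U w r → X ⊆ U → ct w X = r → x₀ ∈ X → y₀ ∈ U \ X →
  Col (cq w X y₀) r → Col (cq w (U \ X) x₀) r → Col w r

/-- existence of a perfect matching -/
def XPM : Prop := ∀ (V : Type) [Fintype V] [DecidableEq V] (U : Finset V) (w : V → V → ℕ)
  (r : ℕ), RG U w r → 0 < r → ∃ m : V → V, PM U w m

/-- the rooted minor lemma -/
def ROO : Prop := ∀ (V : Type) [Fintype V] [DecidableEq V] (R : V → V → Prop) (X Z : Finset V),
  (∀ u v, R u v → R v u) → Z.card = 3 → Disjoint X Z → 2 ≤ X.card →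
  (∀ K, K ⊆ X → Con R K → nb R K ⊆ X ∪ Z ∧ 3 ≤ (nb R K).card) →
  ∃ a b c : V, Z = {a, b, c} ∧ a ≠ b ∧ a ≠ c ∧ b ≠ c ∧ ∃ W A B C : Finset V,
    W ⊆ X ∪ Z ∧ A ⊆ X ∪ Z ∧ B ⊆ X ∪ Z ∧ C ⊆ X ∪ Z ∧
    Con R W ∧ Con R A ∧ Con R B ∧ Con R C ∧
    Disjoint W A ∧ Disjoint W B ∧ Disjoint W C ∧ Disjoint A B ∧ Disjoint A C ∧ Disjoint B C ∧
    a ∈ A ∧ b ∈ B ∧ c ∈ C ∧ Tch R W A ∧ Tch R W B ∧ Tch R W C ∧ Tch R B C

/-- a 5-cycle in a set of five vertices with a cut of size `r + 2` -/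
def HAM : Prop := ∀ (V : Type) [Fintype V] [DecidableEq V] (U S : Finset V) (w : V → V → ℕ)
  (r : ℕ), RG U w r → S ⊆ U → S.card = 5 → ct w S = r + 2 →
  (∀ T, T ⊆ S → T.card = 3 → r + 2 ≤ ct w T) → (∀ s ∈ S, ∃ v, v ∉ S ∧ w s v ≠ 0) →
  ∃ x : Fin 5 → V, Function.Injective x ∧ (∀ i, x i ∈ S) ∧ ∀ i, w (x i) (x (i + 1)) ≠ 0

/-- the ten vertex lemma -/
def TEN : Prop := ∀ (V : Type) [Fintype V] [DecidableEq V] (U : Finset V) (w : V → V → ℕ)
  (r : ℕ), RG U w (r + 1) → U.card = 10 →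
  (∀ X, X ⊆ U → Odd X.card → 3 ≤ X.card → X.card + 3 ≤ U.card → r + 1 < ct w X) →
  (∀ m, PM U w m → ∃ X, X ⊆ U ∧ Odd X.card ∧ ct w X < r + cr m X) →
  ∃ x y : Fin 5 → V, Function.Injective x ∧ Function.Injective y ∧ (∀ i j, x i ≠ y j) ∧
    (∀ i, x i ∈ U ∧ y i ∈ U) ∧ (∀ i, w (x i) (x (i + 1)) ≠ 0) ∧
    (∀ i, w (y i) (y (i + 2)) ≠ 0) ∧ ∀ i, w (x i) (y i) ≠ 0

/-- the concrete Petersen graph gives a model -/
def PTM : Prop := ∀ (V : Type) [Fintype V] [DecidableEq V] (U : Finset V) (R : V → V → Prop)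
  (x y : Fin 5 → V), (∀ u v, R u v → R v u) → Function.Injective x → Function.Injective y →
  (∀ i j, x i ≠ y j) → (∀ i, x i ∈ U ∧ y i ∈ U) → (∀ i, R (x i) (x (i + 1))) →
  (∀ i, R (y i) (y (i + 2))) → (∀ i, R (x i) (y i)) → PetM R U

/-- tree decompositions pass to minors -/
def TDM : Prop := ∀ (V : Type) [Fintype V] [DecidableEq V] (ι : Type) (T : SimpleGraph ι)
  (β : ι → Finset V) (R R' : V → V → Prop) (U U' : Finset V) (k l : ℕ),
  (∀ u v, R u v → R v u) → (∀ u v, R u v → u ∈ U ∧ v ∈ U) → (∀ u v, R' u v → u ∈ U' ∧ v ∈ U') →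
  TD T β R U k l → Mnr R' U' R U → ∃ β' : ι → Finset V, TD T β' R' U' k l

/-- a central bag -/
def SNK : Prop := ∀ (V : Type) [Fintype V] [DecidableEq V] (ι : Type) [Finite ι]
  (T : SimpleGraph ι) (β : ι → Finset V) (R : V → V → Prop) (U : Finset V) (k : ℕ),
  (∀ u v, R u v → R v u) → (∀ u v, R u v → u ∈ U ∧ v ∈ U) → TD T β R U k 3 → 6 ≤ U.card →
  (∀ K, K ⊆ U → 2 ≤ K.card → 2 ≤ (U \ (K ∪ nb R K)).card → 4 ≤ (nb R K).card) →
  ∃ t, ∀ u ∈ U \ β t, ∀ v ∈ U \ β t, u ≠ v → ¬ R u v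

/-- bipartite graphs -/
def BIP : Prop := ∀ (V : Type) [Fintype V] [DecidableEq V] (U S : Finset V) (w : V → V → ℕ)
  (r : ℕ), RG U w r → S ⊆ U → S.card ≤ (U \ S).card →
  (∀ u ∈ U \ S, ∀ v ∈ U \ S, w u v = 0) → Col w r

/-- from multigraphs with labelled edges to weights -/
def CV1 : Prop := ∀ (V : Type) [Fintype V] [DecidableEq V] (E : Type) [Fintype E]
  (ends : E → Sym2 V) (r : ℕ), (∀ e, ¬ (ends e).IsDiag) →
  (∀ v : V, {e : E | v ∈ ends e}.ncard = r) →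
  (∀ X : Finset V, Odd X.card → r ≤ {e : E | ∃ u ∈ X, ∃ w ∉ X, ends e = s(u, w)}.ncard) →
  RG univ (wt ends) r ∧
  (Col (wt ends) r → ∃ c : E → Fin r, ∀ e₁ e₂ : E, e₁ ≠ e₂ →
    (∃ v, v ∈ ends e₁ ∧ v ∈ ends e₂) → c e₁ ≠ c e₂)

/-- from weights to multigraphs with labelled edges -/
def CV2 : Prop := ∀ (V : Type) [Fintype V] [DecidableEq V] (U : Finset V) (w : V → V → ℕ)
  (r : ℕ), RG U w r → ∃ (E : Type) (_ : Fintype E) (ends : E → Sym2 {v // v ∈ U}),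
  (∀ e, ¬ (ends e).IsDiag) ∧ (∀ v, {e : E | v ∈ ends e}.ncard = r) ∧
  (∀ X : Finset {v // v ∈ U}, {e : E | ∃ u ∈ X, ∃ w ∉ X, ends e = s(u, w)}.ncard
    = ct w (X.map (Function.Embedding.subtype _))) ∧
  (∀ u v : {v // v ∈ U}, {e : E | ends e = s(u, v)}.ncard = w u v) ∧
  ((∃ c : E → Fin r, ∀ e₁ e₂ : E, e₁ ≠ e₂ → (∃ v, v ∈ ends e₁ ∧ v ∈ ends e₂) → c e₁ ≠ c e₂) →
    Col w r)

/-- connected sets in the sense of Mathlib -/
def CNN : Prop := ∀ (V : Type) [Fintype V] [DecidableEq V] (G : SimpleGraph V) (S : Finset V),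
  (G.induce (↑S : Set V)).Connected ↔ Con G.Adj S

end Pool.Agent.Helper37.RG3
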