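import Mathlib
import Pool.Agent.Helper37.RG3.Goals

set_option autoImplicit false
set_option linter.unusedSectionVars false

/-!
Gluing colourings along three vertices.
-/

namespace Pool.Agent.Helper37.RG3

open Finset

/-- parity of a triple -/
def par (x : Bool × Bool × Bool) : Bool := xor x.1 (xor x.2.1 x.2.2)

/-- Hamming distance -/
def hd (x t : Bool × Bool × Bool) : ℕ :=
  (xor x.1 t.1).toNat + (xor x.2.1 t.2.1).toNat + (xor x.2.2 t.2.2).toNat

theorem hd_spec : ∀ x t : Bool × Bool × Bool, par x = par t →
    2 * (if x = t then 1 else 0) + hd x t = 2 := by decide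

theorem sum_xor {r : ℕ} (p q : Fin r → Bool) (h : ∑ i, (p i).toNat = ∑ i, (q i).toNat) (s : Bool) :
    ∑ i, (xor (p i) s).toNat = ∑ i, (xor (q i) s).toNat := by
  cases s
  · simpa using h
  · have key : ∀ f : Fin r → Bool, ∑ i, (xor (f i) true).toNat + ∑ i, (f i).toNat = r := by
      intro f
      rw [← Finset.sum_add_distrib]
      have : ∀ i, (xor (f i) true).toNat + (f i).toNat = 1 := by
        intro i
        cases f i <;> rfl
      rw [Finset.sum_congr rfl fun i _ => this i]
      simp
    have h1 := key p
    have h2 := key q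
    omega

/-- The numbers of the types are determined by parity and the degrees. -/
theorem types {r : ℕ} (P Q : Fin r → Bool × Bool × Bool) (p : Bool) (hP : ∀ i, par (P i) = p)
    (hQ : ∀ i, par (Q i) = p) (h1 : ∑ i, (P i).1.toNat = ∑ i, (Q i).1.toNat)
    (h2 : ∑ i, (P i).2.1.toNat = ∑ i, (Q i).2.1.toNat)
    (h3 : ∑ i, (P i).2.2.toNat = ∑ i, (Q i).2.2.toNat) (t : Bool × Bool × Bool) :
    (univ.filter fun i => P i = t).card = (univ.filter fun i => Q i = t).card := by
  by_cases ht : par t = p
  · have key : ∀ F : Fin r → Bool × Bool × Bool, (∀ i, par (F i) = p) →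
        2 * (univ.filter fun i => F i = t).card + ∑ i, hd (F i) t = 2 * r := by
      intro F hF
      rw [Finset.card_filter, Finset.mul_sum, ← Finset.sum_add_distrib]
      rw [Finset.sum_congr rfl fun i _ => hd_spec (F i) t ((hF i).trans ht.symm)]
      simp [mul_comm]
    have kP := key P hP
    have kQ := key Q hQ
    have hsum : ∑ i, hd (P i) t = ∑ i, hd (Q i) t := by
      unfold hd
      rw [Finset.sum_add_distrib, Finset.sum_add_distrib, Finset.sum_add_distrib,
        Finset.sum_add_distrib]
      rw [sum_xor (fun i => (P i).1) (fun i => (Q i).1) h1,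
        sum_xor (fun i => (P i).2.1) (fun i => (Q i).2.1) h2,
        sum_xor (fun i => (P i).2.2) (fun i => (Q i).2.2) h3]
    omega
  · rw [Finset.filter_false_of_mem, Finset.filter_false_of_mem]
    · intro i _ h
      rw [← h] at ht
      exact ht (hQ i)
    · intro i _ h
      rw [← h] at ht
      exact ht (hP i)

/-- an involution moves an even number of points -/
theorem even_moved {V : Type} [Fintype V] [DecidableEq V] (s : V → V) (hs : ∀ u, s (s u) = u) :
    Even (univ.filter fun u => s u ≠ u).card := by
  rw [← ZMod.natCast_eq_zero_iff_even, Finset.card_eq_sum_ones, Nat.cast_sum]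
  refine Finset.sum_involution (fun x _ => s x) ?_ ?_ ?_ ?_
  · intro x _
    decide
  · intro x hx _
    simpa using hx
  · intro x hx
    simp only [mem_filter, mem_univ, true_and] at hx ⊢
    rw [hs]
    exact fun h => hx h.symm
  · intro x _
    exact hs x

theorem gl3 : GL3 := by
  intro V _ _ U X Y w r a b c h hr hs hc1 hc2
  obtain ⟨σ, hσ, h1⟩ := hc1
  obtain ⟨τ, hτ, h2⟩ := hc2
  have i1 : ∀ u, tch w X u u = 0 := fun u => by unfold tch; simp [h.irr]
  have i2 : ∀ u, del w X u u = 0 := fun u => by unfold del; simp [h.irr]
  have d1 := fun u => col_deg h1 i1 u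
  have d2 := fun u => col_deg h2 i2 u
  have hsplit : ∀ u, ∑ v, tch w X u v + ∑ v, del w X u v = ∑ v, w u v := by
    intro u
    rw [← Finset.sum_add_distrib]
    refine Finset.sum_congr rfl fun v _ => ?_
    unfold tch del
    split_ifs <;> simp
  have hfull : ∀ (f : Fin r → V → V) (u : V),
      (univ.filter fun i => f i u ≠ u).card = r → ∀ i, f i u ≠ u := by
    intro f u hf i
    have h3 : (univ.filter fun i => f i u ≠ u) = univ := by
      rw [← Finset.card_eq_iff_eq_univ, hf, Fintype.card_fin]
    have h4 : i ∈ (univ.filter fun i => f i u ≠ u) := by rw [h3]; exact mem_univ i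
    simpa using h4
  have hnone : ∀ (f : Fin r → V → V) (u : V),
      (univ.filter fun i => f i u ≠ u).card = 0 → ∀ i, f i u = u := by
    intro f u hf i
    rw [Finset.card_eq_zero, Finset.filter_eq_empty_iff] at hf
    simpa using hf (mem_univ i)
  -- X
  have hXU : X ⊆ U := by rw [hs.un]; intro x hx; simp [hx]
  have hYU : Y ⊆ U := by rw [hs.un]; intro x hx; simp [hx]
  have sX : ∀ u ∈ X, ∀ i, σ i u ≠ u := by
    intro u hu
    refine hfull σ u ?_
    rw [d1, ← h.deg u (hXU hu)]
    refine Finset.sum_congr rfl fun v _ => ?_
    unfold tch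
    simp [hu]
  have tX : ∀ u ∈ X, ∀ i, τ i u = u := by
    intro u hu
    refine hnone τ u ?_
    rw [d2]
    refine Finset.sum_eq_zero fun v _ => ?_
    unfold del
    simp [hu]
  have sY : ∀ u, u ∉ X → u ≠ a → u ≠ b → u ≠ c → ∀ i, σ i u = u := by
    intro u hu ha hb hc
    refine hnone σ u ?_
    rw [d1]
    refine Finset.sum_eq_zero fun v _ => ?_
    unfold tch
    split_ifs with h3
    · have hv : v ∈ X := h3.resolve_left hu
      by_cases huU : u ∈ U
      · rw [hs.un] at huU
        simp only [mem_union, mem_insert, mem_singleton] at huU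
        have huY : u ∈ Y := by tauto
        rw [h.symm]
        exact hs.zero v hv u huY
      · exact h.zero_left huU v
    · rfl
  have tY : ∀ u ∈ Y, ∀ i, τ i u ≠ u := by
    intro u hu
    have huX : u ∉ X := Finset.disjoint_right.mp hs.xy hu
    refine hfull τ u ?_
    rw [d2, ← h.deg u (hYU hu)]
    refine Finset.sum_congr rfl fun v _ => ?_
    unfold del
    split_ifs with h3
    · have hv : v ∈ X := h3.resolve_left huX
      rw [h.symm]
      exact (hs.zero v hv u hu).symm
    · rfl
  have tO : ∀ u, u ∉ U → ∀ i, τ i u = u := by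
    intro u hu
    refine hnone τ u ?_
    rw [d2]
    refine Finset.sum_eq_zero fun v _ => ?_
    unfold del
    split_ifs
    · rfl
    · exact h.zero_left hu v
  -- the types
  set P : Fin r → Bool × Bool × Bool :=
    fun i => (decide (σ i a ≠ a), decide (σ i b ≠ b), decide (σ i c ≠ c)) with hP
  set Q : Fin r → Bool × Bool × Bool :=
    fun i => (decide (τ i a = a), decide (τ i b = b), decide (τ i c = c)) with hQ
  have hsum : ∀ z ∈ U, ∑ i, (decide (σ i z ≠ z)).toNat = ∑ i, (decide (τ i z = z)).toNat := by
    intro z hz
    have e1 : ∑ i, (decide (σ i z ≠ z)).toNat = (univ.filter fun i => σ i z ≠ z).card := by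
      rw [Finset.card_filter]
      refine Finset.sum_congr rfl fun i _ => ?_
      by_cases h3 : σ i z = z <;> simp [h3]
    have e2 : ∑ i, (decide (τ i z = z)).toNat = (univ.filter fun i => ¬ (τ i z ≠ z)).card := by
      rw [Finset.card_filter]
      refine Finset.sum_congr rfl fun i _ => ?_
      by_cases h3 : τ i z = z <;> simp [h3]
    have e3 : (univ.filter fun i => τ i z ≠ z).card + (univ.filter fun i => ¬ (τ i z ≠ z)).card
        = r := by
      have := Finset.card_filter_add_card_filter_not (s := (univ : Finset (Fin r)))
        (fun i => τ i z ≠ z)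
      rw [Finset.card_univ, Fintype.card_fin] at this
      exact this
    have e4 := hsplit z
    rw [h.deg z hz, ← d1, ← d2] at e4
    omega
  have haU : a ∈ U := by rw [hs.un]; simp
  have hbU : b ∈ U := by rw [hs.un]; simp
  have hcU : c ∈ U := by rw [hs.un]; simp
  have hUeven := h.even_card hr
  have hUcard : U.card = X.card + Y.card + 3 := by
    rw [hs.un, Finset.card_union_of_disjoint, Finset.card_union_of_disjoint hs.xy]
    · congr 1
      rw [Finset.card_insert_of_notMem, Finset.card_insert_of_notMem, Finset.card_singleton]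
      · simpa using hs.bc
      · simp only [mem_insert, mem_singleton, not_or]
        exact ⟨hs.ab, hs.ac⟩
    · rw [Finset.disjoint_right]
      intro z hz
      simp only [mem_insert, mem_singleton] at hz
      rw [mem_union]
      rcases hz with rfl | rfl | rfl
      · exact fun h => h.elim hs.aX hs.aY
      · exact fun h => h.elim hs.bX hs.bY
      · exact fun h => h.elim hs.cX hs.cY
  have hcount : ∀ (s : V → V) (S : Finset V), a ∉ S → b ∉ S → c ∉ S → (∀ u ∈ S, s u ≠ u) →
      (∀ u, u ∉ S → u ≠ a → u ≠ b → u ≠ c → s u = u) →
      (univ.filter fun u => s u ≠ u).card = S.card + (decide (s a ≠ a)).toNat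
        + (decide (s b ≠ b)).toNat + (decide (s c ≠ c)).toNat := by
    intro s S ha hb hc hS hO
    have e1 : (univ.filter fun u => s u ≠ u) = S ∪ (({a, b, c} : Finset V).filter
        fun u => s u ≠ u) := by
      ext u
      simp only [mem_filter, mem_univ, true_and, mem_union, mem_insert, mem_singleton]
      constructor
      · intro hu
        by_cases huS : u ∈ S
        · exact Or.inl huS
        · right
          refine ⟨?_, hu⟩
          by_contra hcon
          push Not at hcon
          exact hu (hO u huS hcon.1 hcon.2.1 hcon.2.2)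
      · rintro (hu | hu)
        · exact hS u hu
        · exact hu.2
    rw [e1, Finset.card_union_of_disjoint]
    · rw [add_assoc, add_assoc]
      congr 1
      rw [Finset.card_filter, Finset.sum_insert, Finset.sum_insert, Finset.sum_singleton]
      · by_cases h3 : s a = a <;> by_cases h4 : s b = b <;> by_cases h5 : s c = c <;>
          simp [h3, h4, h5]
      · simpa using hs.bc
      · simp only [mem_insert, mem_singleton, not_or]
        exact ⟨hs.ab, hs.ac⟩
    · rw [Finset.disjoint_right]
      intro u hu
      simp only [mem_filter, mem_insert, mem_singleton] at hu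
      rcases hu.1 with rfl | rfl | rfl
      · exact ha
      · exact hb
      · exact hc
  have hparP : ∀ i, par (P i) = decide (X.card % 2 = 1) := by
    intro i
    have e1 := even_moved (σ i) (hσ i)
    rw [hcount (σ i) X hs.aX hs.bX hs.cX (fun u hu => sX u hu i)
      (fun u h1 h2 h3 h4 => sY u h1 h2 h3 h4 i), Nat.even_iff] at e1
    simp only [hP, par]
    revert e1
    generalize decide (σ i a ≠ a) = p
    generalize decide (σ i b ≠ b) = q
    generalize decide (σ i c ≠ c) = s
    intro e1
    rcases Nat.mod_two_eq_zero_or_one X.card with h3 | h3 <;> rw [h3] <;>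
      cases p <;> cases q <;> cases s <;> simp at e1 ⊢ <;> omega
  have hparQ : ∀ i, par (Q i) = decide (X.card % 2 = 1) := by
    intro i
    have e1 := even_moved (τ i) (hτ i)
    rw [hcount (τ i) Y hs.aY hs.bY hs.cY (fun u hu => tY u hu i) ?_, Nat.even_iff] at e1
    · have e2 : ∀ z, decide (τ i z ≠ z) = !decide (τ i z = z) := by
        intro z
        by_cases h3 : τ i z = z <;> simp [h3]
      rw [e2, e2, e2] at e1
      rw [Nat.even_iff, hUcard] at hUeven
      simp only [hQ, par]
      revert e1
      generalize decide (τ i a = a) = p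
      generalize decide (τ i b = b) = q
      generalize decide (τ i c = c) = s
      intro e1
      rcases Nat.mod_two_eq_zero_or_one X.card with h3 | h3 <;> rw [h3] <;>
        cases p <;> cases q <;> cases s <;> simp at e1 ⊢ <;> omega
    · intro u hu ha hb hc
      by_cases huX : u ∈ X
      · exact tX u huX i
      · refine tO u ?_ i
        rw [hs.un]
        simp only [mem_union, mem_insert, mem_singleton, not_or]
        exact ⟨⟨huX, hu⟩, ha, hb, hc⟩
  obtain ⟨π, hπ⟩ := perm_of_fibers P Q (types P Q _ hparP hparQ (hsum a haU) (hsum b hbU)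
    (hsum c hcU))
  have hmatch : ∀ i, (σ i a ≠ a ↔ τ (π i) a = a) ∧ (σ i b ≠ b ↔ τ (π i) b = b) ∧
      (σ i c ≠ c ↔ τ (π i) c = c) := by
    intro i
    have h3 := hπ i
    simp only [hP, hQ, Prod.mk.injEq, decide_eq_decide] at h3
    exact ⟨h3.1.symm, h3.2.1.symm, h3.2.2.symm⟩
  have hfinal := splice σ (fun i => τ (π i)) hσ (fun i => hτ (π i)) h1 (w2 := del w X) (by
    intro u v huv
    rw [← h2 u v huv]
    refine Finset.card_bij' (fun i _ => π i) (fun i _ => π.symm i) ?_ ?_ ?_ ?_
    · intro i hi
      simpa using hi
    · intro i hi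
      simpa using hi
    · intro i _
      simp
    · intro i _
      simp) (by
    intro i u
    by_cases huX : u ∈ X
    · exact Or.inr (tX u huX _)
    · by_cases ha : u = a
      · subst ha
        by_cases h3 : σ i u = u
        · exact Or.inl h3
        · exact Or.inr ((hmatch i).1.mp h3)
      · by_cases hb : u = b
        · subst hb
          by_cases h3 : σ i u = u
          · exact Or.inl h3
          · exact Or.inr ((hmatch i).2.1.mp h3)
        · by_cases hc : u = c
          · subst hc
            by_cases h3 : σ i u = u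
            · exact Or.inl h3
            · exact Or.inr ((hmatch i).2.2.mp h3)
          · exact Or.inl (sY u huX ha hb hc i))
  have hw : (fun u v => tch w X u v + del w X u v) = w := by
    funext u v
    unfold tch del
    split_ifs <;> simp
  rw [hw] at hfinal
  exact hfinal

end Pool.Agent.Helper37.RG3
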