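import Mathlib
import Pool.Agent.Helper37.RG3.Goals

set_option autoImplicit false
set_option linter.unusedSectionVars false

/-!
Connectivity of `r`-graphs without nontrivial tight cuts.
-/

namespace Pool.Agent.Helper37.RG3

open Finset

variable {V : Type} [Fintype V] [DecidableEq V] {U : Finset V} {w : V → V → ℕ} {r : ℕ}

/-- every proper nonempty set of vertices has a neighbour -/
def CN (U : Finset V) (w : V → V → ℕ) : Prop :=
  ∀ K, K ⊆ U → K.Nonempty → K ≠ U → (nb (Adj w) K).Nonempty

/-- no nontrivial tight cut -/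
def NT (U : Finset V) (w : V → V → ℕ) (r : ℕ) : Prop :=
  ∀ X, X ⊆ U → Odd X.card → 3 ≤ X.card → X.card + 3 ≤ U.card → r < ct w X

/-- no perfect matching can be removed -/
def BD (U : Finset V) (w : V → V → ℕ) (r : ℕ) : Prop :=
  ∀ m, PM U w m → ∃ X, X ⊆ U ∧ Odd X.card ∧ ct w X + 1 < r + cr m X

/-- 3-connected -/
def C3 (U : Finset V) (w : V → V → ℕ) : Prop :=
  ∀ K, K ⊆ U → K.Nonempty → K ∪ nb (Adj w) K ≠ U → 3 ≤ (nb (Adj w) K).card

/-- every separation by three vertices has a side with at most one vertex -/
def I4 (U : Finset V) (w : V → V → ℕ) : Prop :=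
  ∀ K, K ⊆ U → 2 ≤ K.card → 2 ≤ (U \ (K ∪ nb (Adj w) K)).card → 4 ≤ (nb (Adj w) K).card

theorem nb_sub (h : RG U w r) (K : Finset V) : nb (Adj w) K ⊆ U := by
  intro v hv
  rw [mem_nb] at hv
  obtain ⟨-, s, -, hs⟩ := hv
  exact h.supp' hs

theorem nb_disj (R : V → V → Prop) (K : Finset V) : Disjoint K (nb R K) := by
  rw [Finset.disjoint_right]
  intro v hv
  rw [mem_nb] at hv
  exact hv.1

/-- no edges from `K` to the vertices outside `K` and its neighbourhood -/
theorem bt_far (K : Finset V) : bt w K (U \ (K ∪ nb (Adj w) K)) = 0 := by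
  rw [bt_eq_zero]
  intro a ha b hb
  simp only [mem_sdiff, mem_union, not_or] at hb
  by_contra hne
  exact hb.2.2 (mem_nb.mpr ⟨hb.2.1, a, ha, hne⟩)

theorem nb_nonempty_of_ct {K : Finset V} (hc : ct w K ≠ 0) : (nb (Adj w) K).Nonempty := by
  by_contra hcon
  rw [Finset.not_nonempty_iff_eq_empty] at hcon
  apply hc
  unfold ct
  rw [bt_eq_zero]
  intro a ha b hb
  by_contra hne
  have : b ∈ nb (Adj w) K := mem_nb.mpr ⟨by simpa using hb, a, ha, hne⟩
  rw [hcon] at this
  simp at this

theorem ct_pos_of_nb {K : Finset V} (hn : (nb (Adj w) K).Nonempty) : 0 < ct w K := by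
  obtain ⟨v, hv⟩ := hn
  rw [mem_nb] at hv
  obtain ⟨hvK, s, hs, hsv⟩ := hv
  have h1 := le_bt w hs (show v ∈ Kᶜ by simpa using hvK)
  unfold ct
  unfold Adj at hsv
  omega

theorem three_conn (h : RG U w r) (hr : 0 < r) (hU : 6 ≤ U.card) (hcn : CN U w)
    (nt : NT U w r) : C3 U w := by
  intro K hK hKne hKU
  set N := nb (Adj w) K with hN
  set Y := U \ (K ∪ N) with hY
  have hNU : N ⊆ U := nb_sub h K
  have hKN : Disjoint K N := nb_disj _ K
  have hYne : Y.Nonempty := by
    rw [Finset.nonempty_iff_ne_empty]
    intro he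
    rw [hY, Finset.sdiff_eq_empty_iff_subset] at he
    exact hKU (Finset.Subset.antisymm (Finset.union_subset hK hNU) he)
  have hYU : Y ⊆ U := Finset.sdiff_subset
  have hKY : Disjoint K Y := by
    rw [Finset.disjoint_right]
    intro v hv hvK
    simp only [hY, mem_sdiff, mem_union, not_or] at hv
    exact hv.2.1 hvK
  have hNY : Disjoint N Y := by
    rw [Finset.disjoint_right]
    intro v hv hvK
    simp only [hY, mem_sdiff, mem_union, not_or] at hv
    exact hv.2.2 hvK
  have hUeq : U = K ∪ (N ∪ Y) := by
    ext v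
    simp only [hY, mem_union, mem_sdiff, not_or]
    constructor
    · intro hv
      by_cases h1 : v ∈ K
      · exact Or.inl h1
      · by_cases h2 : v ∈ N
        · exact Or.inr (Or.inl h2)
        · exact Or.inr (Or.inr ⟨hv, h1, h2⟩)
    · rintro (h1 | h1 | h1)
      · exact hK h1
      · exact hNU h1
      · exact h1.1
  have hKNY : Disjoint K (N ∪ Y) := Finset.disjoint_union_right.mpr ⟨hKN, hKY⟩
  have hcard : U.card = K.card + (N.card + Y.card) := by
    rw [← Finset.card_union_of_disjoint hNY, ← Finset.card_union_of_disjoint hKNY, ← hUeq]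
  have hfar : bt w K Y = 0 := bt_far K
  have hctK : ct w K = bt w K N := by
    rw [h.ct_eq K]
    have e1 : U \ K = N ∪ Y := by
      conv_lhs => rw [hUeq]
      exact Finset.union_sdiff_cancel_left hKNY
    rw [e1, bt_union_right w K hNY, hfar, add_zero]
  have hctY : ct w Y = bt w Y N := by
    rw [h.ct_eq Y]
    have e1 : U \ Y = K ∪ N := by
      conv_lhs => rw [hUeq, ← Finset.union_assoc]
      exact Finset.union_sdiff_cancel_right (Finset.disjoint_union_left.mpr ⟨hKY, hNY⟩)
    rw [e1, bt_union_right w Y hKN, bt_comm w h.symm Y K, hfar, zero_add]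
  have hdegN : ct w K + ct w Y + bt w N N = r * N.card := by
    rw [← h.bt_deg' hNU]
    conv_rhs => rw [hUeq]
    rw [bt_union_right w N hKNY, bt_union_right w N hNY, hctK, hctY, bt_comm w h.symm K N,
      bt_comm w h.symm Y N]
    omega
  have hUe := h.even_card hr
  obtain ⟨q, hq⟩ := hUe
  have hK1 : 0 < K.card := Finset.card_pos.mpr hKne
  have hY1 : 0 < Y.card := Finset.card_pos.mpr hYne
  have hnbK : 0 < ct w K := by
    refine ct_pos_of_nb (hcn K hK hKne ?_)
    intro he
    rw [he] at hKY
    exact (Finset.nonempty_iff_ne_empty.mp hYne) (by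
      rw [← Finset.disjoint_self_iff_empty]
      exact Finset.disjoint_of_subset_left hYU hKY)
  have hnbY : 0 < ct w Y := by
    refine ct_pos_of_nb (hcn Y hYU hYne ?_)
    intro he
    rw [he] at hKY
    exact (Finset.nonempty_iff_ne_empty.mp hKne) (by
      rw [← Finset.disjoint_self_iff_empty]
      exact Finset.disjoint_of_subset_right hK hKY)
  by_contra hlt
  push Not at hlt
  have hN0 : N.card ≠ 0 := by
    intro h0
    rw [h0, mul_zero] at hdegN
    omega
  have hN12 : N.card = 1 ∨ N.card = 2 := by omega
  rcases hN12 with hN1 | hN2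
  · -- one vertex
    rw [hN1, mul_one] at hdegN
    rcases Nat.even_or_odd K.card with hKe | hKo
    · have hYo : Odd Y.card := by
        obtain ⟨k, hk⟩ := hKe
        exact ⟨q - k - 1, by omega⟩
      have := h.cut Y hYU hYo
      omega
    · have := h.cut K hK hKo
      omega
  · rcases Nat.even_or_odd K.card with hKe | hKo
    · -- both even
      obtain ⟨a, b, hab, hNab⟩ := Finset.card_eq_two.mp hN2
      have haK : a ∉ K := Finset.disjoint_right.mp hKN (by rw [hNab]; simp)
      have hbK : b ∉ K := Finset.disjoint_right.mp hKN (by rw [hNab]; simp)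
      have haU : a ∈ U := hNU (by rw [hNab]; simp)
      have hbU : b ∈ U := hNU (by rw [hNab]; simp)
      have hbN : bt w N N = 2 * w a b := by
        rw [hNab]
        unfold bt
        rw [Finset.sum_pair hab, Finset.sum_pair hab, Finset.sum_pair hab, h.irr, h.irr,
          h.symm b a]
        ring
      have hsm := submod w h.symm (insert a K) (insert b K)
      have e1 : insert a K ∩ insert b K = K := by
        ext v
        simp only [mem_inter, mem_insert]
        constructor
        · rintro ⟨h1 | h1, h2 | h2⟩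
          · exact absurd (h1.symm.trans h2) hab
          · exact h2
          · exact h1
          · exact h1
        · intro hv
          exact ⟨Or.inr hv, Or.inr hv⟩
      have e2 : insert a K ∪ insert b K = U \ Y := by
        have e3 : U \ Y = K ∪ N := by
          conv_lhs => rw [hUeq, ← Finset.union_assoc]
          exact Finset.union_sdiff_cancel_right (Finset.disjoint_union_left.mpr ⟨hKY, hNY⟩)
        rw [e3, hNab]
        ext v
        simp only [mem_union, mem_insert, mem_singleton]
        tauto
      have e4 : insert a K \ insert b K = {a} := by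
        ext v
        simp only [mem_sdiff, mem_insert, mem_singleton, not_or]
        constructor
        · rintro ⟨h1 | h1, h2, h3⟩
          · exact h1
          · exact absurd h1 h3
        · rintro rfl
          exact ⟨Or.inl rfl, hab, haK⟩
      have e5 : insert b K \ insert a K = {b} := by
        ext v
        simp only [mem_sdiff, mem_insert, mem_singleton, not_or]
        constructor
        · rintro ⟨h1 | h1, h2, h3⟩
          · exact h1
          · exact absurd h1 h3
        · rintro rfl
          exact ⟨Or.inl rfl, hab.symm, hbK⟩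
      rw [e1, e2, e4, e5, bt_pair, h.ct_compl hYU] at hsm
      obtain ⟨k, hk⟩ := hKe
      have ca : (insert a K).card = K.card + 1 := Finset.card_insert_of_notMem haK
      have cb : (insert b K).card = K.card + 1 := Finset.card_insert_of_notMem hbK
      have n1 := nt (insert a K) (Finset.insert_subset haU hK) ⟨k, by omega⟩ (by omega) (by omega)
      have n2 := nt (insert b K) (Finset.insert_subset hbU hK) ⟨k, by omega⟩ (by omega) (by omega)
      rw [hN2] at hdegN
      omega
    · have hYo : Odd Y.card := by
        obtain ⟨k, hk⟩ := hKo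
        exact ⟨q - k - 2, by omega⟩
      have c1 := h.cut K hK hKo
      have c2 := h.cut Y hYU hYo
      rw [hN2] at hdegN
      obtain ⟨k, hk⟩ := hKo
      obtain ⟨l, hl⟩ := hYo
      by_cases hK3 : 3 ≤ K.card
      · have := nt K hK ⟨k, hk⟩ hK3 (by omega)
        omega
      · have := nt Y hYU ⟨l, hl⟩ (by omega) (by omega)
        omega

/-- A graph without nontrivial tight cuts from which no perfect matching can be removed has at
least ten vertices. -/
theorem ten_le (hx : XPM) (h : RG U w r) (hr : 0 < r) (nt : NT U w r) (bd : BD U w r) :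
    10 ≤ U.card := by
  obtain ⟨m, hm⟩ := hx V U w r h hr
  obtain ⟨X, hX, ho, hlt⟩ := bd m hm
  have hXU := Finset.card_le_card hX
  have hUe := h.even_card hr
  obtain ⟨q, hq⟩ := hUe
  obtain ⟨k, hk⟩ := ho
  have hc : (U \ X).card = U.card - X.card := Finset.card_sdiff_of_subset hX
  have hcut := h.cut X hX ⟨k, hk⟩
  have hcr1 := cr_le m X
  have hcr2 := cr_le m (U \ X)
  rw [cr_compl h hm hX] at hcr2
  have hpar := cr_parity h hm hX
  have hpc := h.ct_odd_parity hX ⟨k, hk⟩
  by_cases h1 : 3 ≤ X.card ∧ X.card + 3 ≤ U.card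
  · have := nt X hX ⟨k, hk⟩ h1.1 h1.2
    omega
  · omega

end Pool.Agent.Helper37.RG3
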