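import Mathlib
import Pool.Agent.Helper37.RG3.ThreeC
import Pool.Agent.Helper37.RG3.Glue

set_option autoImplicit false
set_option linter.unusedSectionVars false

/-!
Reduction of an uncolourable `r`-graph to a critical one.
-/

namespace Pool.Agent.Helper37.RG3

open Finset

variable {V : Type} [Fintype V] [DecidableEq V] {U : Finset V} {w : V → V → ℕ} {r : ℕ}

/-- the critical `r`-graphs -/
structure Crit (U : Finset V) (w : V → V → ℕ) (r : ℕ) : Prop where
  rg : RG U w r
  pos : 0 < r
  nc : ¬ Col w r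
  cn : CN U w
  nt : NT U w r
  bd : BD U w r
  c3 : C3 U w
  i4 : I4 U w
  ten : 10 ≤ U.card

theorem adj_symm (h : RG U w r) : ∀ u v, Adj w u v → Adj w v u := by
  intro u v huv
  unfold Adj at *
  rwa [h.symm v u]

theorem col_zero (h : RG U w 0) : Col w 0 := by
  refine ⟨fun i => i.elim0, fun i => i.elim0, ?_⟩
  intro u v _
  have h0 : w u v = 0 := by
    by_cases hu : u ∈ U
    · have h1 := h.deg u hu
      rw [Finset.sum_eq_zero_iff] at h1
      exact h1 v (mem_univ v)
    · exact h.zero_left hu v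
  rw [h0, Finset.card_eq_zero]
  ext i
  exact i.elim0

/-- A vertex without edges is fixed by all colours. -/
theorem col_fix {w : V → V → ℕ} {r : ℕ} {σ : Fin r → V → V}
    (h : ∀ u v, u ≠ v → (univ.filter fun i => σ i u = v).card = w u v) {u : V}
    (hu : ∀ v, w u v = 0) (i : Fin r) : σ i u = u := by
  by_contra hne
  have h1 := h u (σ i u) (fun h => hne h.symm)
  rw [hu, Finset.card_eq_zero] at h1
  have : i ∈ (univ.filter fun j => σ j u = σ i u) := by simp
  rw [h1] at this
  simp at this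

/-! ### disconnected graphs -/

/-- the edges inside `K` -/
def ins (w : V → V → ℕ) (K : Finset V) : V → V → ℕ := fun u v => if u ∈ K ∧ v ∈ K then w u v else 0

theorem rg_ins (h : RG U w r) {K : Finset V} (hK : K ⊆ U)
    (hn : ∀ u ∈ K, ∀ v, w u v ≠ 0 → v ∈ K) : RG K (ins w K) r where
  symm := by
    intro u v
    unfold ins
    rw [h.symm u v]
    by_cases h1 : u ∈ K <;> by_cases h2 : v ∈ K <;> simp [h1, h2]
  irr := by
    intro u
    unfold ins
    rw [h.irr]
    simp
  supp := by
    intro u v huv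
    unfold ins at huv
    by_contra hu
    exact huv (if_neg fun hh => hu hh.1)
  deg := by
    intro u hu
    rw [← h.deg u (hK hu)]
    refine Finset.sum_congr rfl fun v _ => ?_
    unfold ins
    by_cases hv : v ∈ K
    · rw [if_pos ⟨hu, hv⟩]
    · rw [if_neg fun hh => hv hh.2]
      by_contra hne
      exact hv (hn u hu v fun hh => hne hh.symm)
  cut := by
    intro X hX ho
    have h1 := h.cut X (hX.trans hK) ho
    have h2 : ct (ins w K) X = ct w X := by
      unfold ct
      refine bt_congr fun a ha b _ => ?_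
      unfold ins
      by_cases hv : b ∈ K
      · rw [if_pos ⟨hX ha, hv⟩]
      · rw [if_neg fun hh => hv hh.2]
        by_contra hne
        exact hv (hn a (hX ha) b fun hh => hne hh.symm)
    omega

theorem ins_le (w : V → V → ℕ) (K : Finset V) (u v : V) : ins w K u v ≤ w u v := by
  unfold ins
  split_ifs <;> omega

/-- one reduction step -/
def Stp (U : Finset V) (w : V → V → ℕ) (r : ℕ) : Prop :=
  ∃ (U' : Finset V) (w' : V → V → ℕ) (r' : ℕ), r' ≤ r ∧ U' ⊆ U ∧ U'.card + r' < U.card + r ∧
    RG U' w' r' ∧ ¬ Col w' r' ∧ Mnr (Adj w') U' (Adj w) U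

theorem step_cn (h : RG U w r) (nc : ¬ Col w r) (hcn : ¬ CN U w) : Stp U w r := by
  unfold CN at hcn
  push Not at hcn
  obtain ⟨K, hK, hne, hKU, hnb⟩ := hcn
  have hn1 : ∀ u ∈ K, ∀ v, w u v ≠ 0 → v ∈ K := by
    intro u hu v huv
    by_contra hv
    have : v ∈ nb (Adj w) K := mem_nb.mpr ⟨hv, u, hu, huv⟩
    rw [hnb] at this
    simp at this
  have hn2 : ∀ u ∈ U \ K, ∀ v, w u v ≠ 0 → v ∈ U \ K := by
    intro u hu v huv
    rw [mem_sdiff] at hu ⊢
    refine ⟨h.supp' huv, fun hv => hu.2 (hn1 v hv u ?_)⟩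
    rwa [h.symm]
  have h1 := rg_ins h hK hn1
  have h2 := rg_ins h (Finset.sdiff_subset (s := U) (t := K)) hn2
  have hlt1 : K.card < U.card := Finset.card_lt_card ((Finset.ssubset_iff_subset_ne).mpr ⟨hK, hKU⟩)
  have hlt2 : (U \ K).card < U.card := by
    rw [Finset.card_sdiff_of_subset hK]
    have := Finset.card_pos.mpr hne
    omega
  have key : ∀ L : Finset V, L ⊆ U → Mnr (Adj (ins w L)) L (Adj w) U := by
    intro L hL
    refine Mnr.of_le hL fun u _ v _ huv => ?_
    have := ins_le w L u v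
    unfold Adj at *
    omega
  by_cases c1 : Col (ins w K) r
  · by_cases c2 : Col (ins w (U \ K)) r
    · exfalso
      obtain ⟨σ, hσ, hσ2⟩ := c1
      obtain ⟨τ, hτ, hτ2⟩ := c2
      have hs := splice σ τ hσ hτ hσ2 hτ2 (by
        intro i u
        by_cases hu : u ∈ K
        · right
          refine col_fix hτ2 (fun v => ?_) i
          unfold ins
          rw [if_neg]
          rintro ⟨h1, -⟩
          rw [mem_sdiff] at h1
          exact h1.2 hu
        · left
          refine col_fix hσ2 (fun v => ?_) i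
          unfold ins
          rw [if_neg]
          rintro ⟨h1, -⟩
          exact hu h1)
      apply nc
      have he : (fun u v => ins w K u v + ins w (U \ K) u v) = w := by
        funext u v
        unfold ins
        by_cases hu : u ∈ K
        · rw [if_neg (c := u ∈ U \ K ∧ v ∈ U \ K) (by rw [mem_sdiff]; tauto), add_zero]
          by_cases hv : v ∈ K
          · rw [if_pos ⟨hu, hv⟩]
          · rw [if_neg (by tauto)]
            by_contra hne'
            exact hv (hn1 u hu v fun hh => hne' hh.symm)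
        · rw [if_neg (by tauto), zero_add]
          by_cases huU : u ∈ U
          · by_cases hv : v ∈ U \ K
            · rw [if_pos ⟨by rw [mem_sdiff]; exact ⟨huU, hu⟩, hv⟩]
            · rw [if_neg (by tauto)]
              by_contra hne'
              exact hv (hn2 u (by rw [mem_sdiff]; exact ⟨huU, hu⟩) v fun hh => hne' hh.symm)
          · rw [if_neg (by rw [mem_sdiff]; tauto), h.zero_left huU]
      rw [he] at hs
      exact hs
    · exact ⟨U \ K, ins w (U \ K), r, le_rfl, Finset.sdiff_subset, by omega, h2, c2,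
        key _ Finset.sdiff_subset⟩
  · exact ⟨K, ins w K, r, le_rfl, hK, by omega, h1, c1, key _ hK⟩

/-! ### tight cuts -/

/-- The sides of a tight cut are connected. -/
theorem con_tight (h : RG U w r) (cn : CN U w) {X : Finset V} (hX : X ⊆ U)
    (ho : Odd X.card) (hc : ct w X = r) : Con (Adj w) X := by
  refine ⟨Finset.card_pos.mp ho.pos, ?_⟩
  intro P hP hPne hPX
  by_contra hcon
  push Not at hcon
  set Q := X \ P with hQ
  have hQX : Q ⊆ X := Finset.sdiff_subset
  have hPQ : Disjoint P Q := Finset.disjoint_sdiff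
  have hXe : X = P ∪ Q := by
    rw [hQ, Finset.union_sdiff_of_subset hP]
  have hQne : Q.Nonempty := by
    rw [Finset.nonempty_iff_ne_empty]
    intro he
    rw [he, Finset.union_empty] at hXe
    exact hPX hXe.symm
  have hb : bt w P Q = 0 := by
    rw [bt_eq_zero]
    intro a ha b hb
    have := hcon a ha b hb
    unfold Adj at this
    push Not at this
    exact this
  have hsd : Disjoint Q (U \ X) := by
    rw [Finset.disjoint_left]
    intro v hv hv2
    exact (mem_sdiff.mp hv2).2 (hQX hv)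
  have hsd2 : Disjoint P (U \ X) := by
    rw [Finset.disjoint_left]
    intro v hv hv2
    exact (mem_sdiff.mp hv2).2 (hP hv)
  have e1 : U \ P = Q ∪ (U \ X) := by
    ext v
    simp only [hQ, mem_sdiff, mem_union]
    constructor
    · rintro ⟨h1, h2⟩
      by_cases h3 : v ∈ X
      · exact Or.inl ⟨h3, h2⟩
      · exact Or.inr ⟨h1, h3⟩
    · rintro (⟨h1, h2⟩ | ⟨h1, h2⟩)
      · exact ⟨hX h1, h2⟩
      · exact ⟨h1, fun h3 => h2 (hP h3)⟩
  have e2 : U \ Q = P ∪ (U \ X) := by
    ext v
    simp only [hQ, mem_sdiff, mem_union]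
    constructor
    · rintro ⟨h1, h2⟩
      by_cases h3 : v ∈ P
      · exact Or.inl h3
      · refine Or.inr ⟨h1, fun h4 => h2 ⟨h4, h3⟩⟩
    · rintro (h1 | ⟨h1, h2⟩)
      · exact ⟨hX (hP h1), fun h2 => h2.2 h1⟩
      · exact ⟨h1, fun h3 => h2 h3.1⟩
  have f1 : ct w P = bt w P (U \ X) := by
    rw [h.ct_eq P, e1, bt_union_right w P hsd, hb, zero_add]
  have f2 : ct w Q = bt w Q (U \ X) := by
    rw [h.ct_eq Q, e2, bt_union_right w Q hsd2, bt_comm w h.symm Q P, hb, zero_add]
  have f3 : ct w X = bt w P (U \ X) + bt w Q (U \ X) := by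
    rw [h.ct_eq X, ← bt_union_left w hPQ, ← hXe]
  have hcard : X.card = P.card + Q.card := by
    rw [← Finset.card_union_of_disjoint hPQ, ← hXe]
  have hPU : P ⊆ U := hP.trans hX
  have hQU : Q ⊆ U := hQX.trans hX
  have hPneU : P ≠ U := by
    intro he
    exact hPX (Finset.Subset.antisymm hP (by rw [he]; exact hX))
  have hQneU : Q ≠ U := by
    intro he
    obtain ⟨p, hp⟩ := hPne
    exact Finset.disjoint_left.mp hPQ hp (by rw [he]; exact hPU hp)
  have g1 := ct_pos_of_nb (cn P hPU hPne hPneU)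
  have g2 := ct_pos_of_nb (cn Q hQU hQne hQneU)
  rcases Nat.even_or_odd P.card with hPe | hPo
  · have hQo : Odd Q.card := by
      obtain ⟨k, hk⟩ := hPe
      obtain ⟨l, hl⟩ := ho
      exact ⟨l - k, by omega⟩
    have := h.cut Q hQU hQo
    omega
  · have := h.cut P hPU hPo
    omega

theorem mnr_cq (h : RG U w r) {X : Finset V} (hX : X ⊆ U) {y₀ : V} (hy : y₀ ∈ U \ X)
    (hc : Con (Adj w) (U \ X)) : Mnr (Adj (cq w X y₀)) (insert y₀ X) (Adj w) U := by
  have hyX : y₀ ∉ X := (mem_sdiff.mp hy).2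
  have hne : ∀ x ∈ X, x ≠ y₀ := by
    rintro x hx rfl
    exact hyX hx
  refine ⟨fun u => if u = y₀ then U \ X else {u}, ?_, ?_, ?_⟩
  · intro u hu
    beta_reduce
    by_cases h1 : u = y₀
    · rw [if_pos h1]
      exact ⟨hc, Finset.sdiff_subset⟩
    · rw [if_neg h1]
      refine ⟨Con.single _ u, ?_⟩
      rw [Finset.singleton_subset_iff]
      exact hX ((Finset.mem_insert.mp hu).resolve_left h1)
  · intro u hu v hv huv
    beta_reduce
    by_cases h1 : u = y₀
    · have h2 : v ≠ y₀ := fun h3 => huv (h1.trans h3.symm)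
      rw [if_pos h1, if_neg h2, Finset.disjoint_singleton_right, mem_sdiff]
      exact fun h3 => h3.2 ((Finset.mem_insert.mp hv).resolve_left h2)
    · rw [if_neg h1]
      by_cases h2 : v = y₀
      · rw [if_pos h2, Finset.disjoint_singleton_left, mem_sdiff]
        exact fun h3 => h3.2 ((Finset.mem_insert.mp hu).resolve_left h1)
      · rw [if_neg h2]
        simpa using huv
  · -- adjacency
    have key : ∀ x ∈ X, bt w {x} Xᶜ ≠ 0 → Tch (Adj w) {x} (U \ X) := by
      intro x _ hb
      by_contra hcon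
      apply hb
      rw [bt_eq_zero]
      intro a ha b hb'
      by_contra hne'
      refine hcon ⟨a, ha, b, ?_, hne'⟩
      rw [mem_sdiff]
      exact ⟨h.supp' hne', by simpa using hb'⟩
    intro u hu v hv huv
    beta_reduce
    unfold Adj cq at huv
    by_cases h1 : u = y₀
    · by_cases h2 : v = y₀
      · exfalso
        apply huv
        rw [if_neg (by rintro ⟨h3, -⟩; exact hne u h3 h1),
          if_neg (by rintro ⟨h3, -⟩; exact hne u h3 h1),
          if_neg (by rintro ⟨-, h3⟩; exact hne v h3 h2)]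
      · have hvX := (Finset.mem_insert.mp hv).resolve_left h2
        rw [if_neg (by rintro ⟨h3, -⟩; exact hne u h3 h1),
          if_neg (by rintro ⟨h3, -⟩; exact hne u h3 h1), if_pos ⟨h1, hvX⟩] at huv
        rw [if_pos h1, if_neg h2]
        exact Tch.symm (adj_symm h) (key v hvX huv)
    · have huX := (Finset.mem_insert.mp hu).resolve_left h1
      rw [if_neg h1]
      by_cases h2 : v = y₀
      · rw [if_neg (by rintro ⟨-, h3⟩; exact hne v h3 h2), if_pos ⟨huX, h2⟩] at huv
        rw [if_pos h2]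
        exact key u huX huv
      · have hvX := (Finset.mem_insert.mp hv).resolve_left h2
        rw [if_pos ⟨huX, hvX⟩] at huv
        rw [if_neg h2]
        exact ⟨u, by simp, v, by simp, huv⟩

theorem step_nt (hTRG : TRG) (hTCO : TCO) (h : RG U w r) (hr : 0 < r) (nc : ¬ Col w r)
    (hcn : CN U w) (hnt : ¬ NT U w r) : Stp U w r := by
  unfold NT at hnt
  push Not at hnt
  obtain ⟨X, hX, ho, h3, h4, h5⟩ := hnt
  have hct : ct w X = r := le_antisymm h5 (h.cut X hX ho)
  have hUe := h.even_card hr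
  have hYcard : (U \ X).card = U.card - X.card := Finset.card_sdiff_of_subset hX
  have hYo : Odd (U \ X).card := by
    obtain ⟨k, hk⟩ := ho
    obtain ⟨l, hl⟩ := hUe
    exact ⟨l - k - 1, by omega⟩
  have hctY : ct w (U \ X) = r := by rw [h.ct_compl hX, hct]
  obtain ⟨x₀, hx₀⟩ : X.Nonempty := Finset.card_pos.mp ho.pos
  obtain ⟨y₀, hy₀⟩ : (U \ X).Nonempty := Finset.card_pos.mp hYo.pos
  have hy1 : y₀ ∉ X := (mem_sdiff.mp hy₀).2
  have hx1 : x₀ ∉ U \ X := fun hh => (mem_sdiff.mp hh).2 hx₀
  have e : U \ (U \ X) = X := Finset.sdiff_sdiff_eq_self hX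
  by_cases c1 : Col (cq w X y₀) r
  · have c2 : ¬ Col (cq w (U \ X) x₀) r := fun c2 =>
      nc (hTCO V U X w r x₀ y₀ h hX hct hx₀ hy₀ c1 c2)
    refine ⟨insert x₀ (U \ X), cq w (U \ X) x₀, r, le_rfl,
      Finset.insert_subset (hX hx₀) Finset.sdiff_subset, ?_,
      hTRG V U (U \ X) w r x₀ h Finset.sdiff_subset hYo hctY hx1, c2,
      mnr_cq h Finset.sdiff_subset (by rw [e]; exact hx₀)
        (by rw [e]; exact con_tight h hcn hX ho hct)⟩
    rw [Finset.card_insert_of_notMem hx1]
    omega
  · refine ⟨insert y₀ X, cq w X y₀, r, le_rfl,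
      Finset.insert_subset (Finset.sdiff_subset hy₀) hX, ?_,
      hTRG V U X w r y₀ h hX ho hct hy1, c1,
      mnr_cq h hX hy₀ (con_tight h hcn Finset.sdiff_subset hYo hctY)⟩
    rw [Finset.card_insert_of_notMem hy1]
    omega

/-! ### removable perfect matchings -/

theorem step_bd (h : RG U w r) (hr : 0 < r) (nc : ¬ Col w r) (hbd : ¬ BD U w r) :
    Stp U w r := by
  unfold BD at hbd
  push Not at hbd
  obtain ⟨m, hm, hX⟩ := hbd
  obtain ⟨s, rfl⟩ : ∃ s, r = s + 1 := ⟨r - 1, by omega⟩
  refine ⟨U, rem w m, s, by omega, Finset.Subset.refl U, by omega, ?_, ?_, ?_⟩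
  · refine RG.rem h hm fun X hXU ho => ?_
    have := hX X hXU ho
    omega
  · intro hc
    exact nc (Col.of_rem hm hc)
  · refine Mnr.of_le (Finset.Subset.refl U) fun u _ v _ huv => ?_
    unfold Adj at *
    rw [rem_add hm u v]
    omega

/-! ### separations by three vertices -/

theorem edg_ne {a b : V} {n : ℕ} {u v : V} (h : edg a b n u v ≠ 0) :
    (u = a ∧ v = b) ∨ (u = b ∧ v = a) := by
  unfold edg at h
  by_contra hc
  exact h (if_neg hc)

theorem del_ne {K : Finset V} {u v : V} (h : del w K u v ≠ 0) :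
    u ∉ K ∧ v ∉ K ∧ w u v ≠ 0 := by
  unfold del at h
  by_cases hc : u ∈ K ∨ v ∈ K
  · exact absurd (if_pos hc) h
  · rw [if_neg hc] at h
    rw [not_or] at hc
    exact ⟨hc.1, hc.2, h⟩

theorem del_symm (h : RG U w r) (K : Finset V) (u v : V) : del w K u v = del w K v u := by
  unfold del
  rw [h.symm u v]
  by_cases h1 : u ∈ K <;> by_cases h2 : v ∈ K <;> simp [h1, h2]

theorem tch_symm (h : RG U w r) (K : Finset V) (u v : V) : tch w K u v = tch w K v u := by
  unfold tch
  rw [h.symm u v]
  by_cases h1 : u ∈ K <;> by_cases h2 : v ∈ K <;> simp [h1, h2]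

/-- The model of the graph in which `K` is replaced by a gadget. -/
theorem mnr_gad {K N Y : Finset V} {a b c x₀ : V} {w' : V → V → ℕ}
    {U' : Finset V} (hKU : K ⊆ U) (hNU : N ⊆ U) (hYU : Y ⊆ U) (hNe : N = {a, b, c})
    (hab : a ≠ b) (hac : a ≠ c) (hbc : b ≠ c) (hxa : x₀ ≠ a) (hxb : x₀ ≠ b) (hxc : x₀ ≠ c)
    (hYN : Disjoint Y (K ∪ N)) {W A B C : Finset V}
    (hW : W ⊆ K ∪ N) (hA : A ⊆ K ∪ N) (hB : B ⊆ K ∪ N) (hC : C ⊆ K ∪ N)
    (cA : Con (Adj w) A) (cB : Con (Adj w) B) (cC : Con (Adj w) C)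
    (dAB : Disjoint A B) (dAC : Disjoint A C) (dBC : Disjoint B C)
    (haA : a ∈ A) (hbB : b ∈ B) (hcC : c ∈ C)
    (hW' : x₀ ∈ U' → x₀ ∉ Y ∧ Con (Adj w) W ∧ Disjoint W A ∧ Disjoint W B ∧ Disjoint W C)
    (hU' : ∀ u ∈ U', u = x₀ ∨ u ∈ N ∨ u ∈ Y)
    (hadj : ∀ u v, w' u v ≠ 0 → (u ∉ K ∧ v ∉ K ∧ u ≠ x₀ ∧ v ≠ x₀ ∧ w u v ≠ 0) ∨
      (u = a ∧ v = b ∧ Tch (Adj w) A B) ∨ (u = b ∧ v = a ∧ Tch (Adj w) B A) ∨
      (u = a ∧ v = c ∧ Tch (Adj w) A C) ∨ (u = c ∧ v = a ∧ Tch (Adj w) C A) ∨
      (u = b ∧ v = c ∧ Tch (Adj w) B C) ∨ (u = c ∧ v = b ∧ Tch (Adj w) C B) ∨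
      (u = x₀ ∧ v = a ∧ Tch (Adj w) W A) ∨ (u = a ∧ v = x₀ ∧ Tch (Adj w) A W) ∨
      (u = x₀ ∧ v = b ∧ Tch (Adj w) W B) ∨ (u = b ∧ v = x₀ ∧ Tch (Adj w) B W) ∨
      (u = x₀ ∧ v = c ∧ Tch (Adj w) W C) ∨ (u = c ∧ v = x₀ ∧ Tch (Adj w) C W)) :
    Mnr (Adj w') U' (Adj w) U := by
  have haN : a ∈ N := by rw [hNe]; simp
  have hbN : b ∈ N := by rw [hNe]; simp
  have hcN : c ∈ N := by rw [hNe]; simp
  have hKNU : K ∪ N ⊆ U := Finset.union_subset hKU hNU
  have nY : ∀ y ∈ Y, y ∉ N := by
    intro y hy hyN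
    exact Finset.disjoint_left.mp hYN hy (mem_union.mpr (Or.inr hyN))
  have nYKN : ∀ y ∈ Y, y ∉ K ∪ N := fun y hy => Finset.disjoint_left.mp hYN hy
  set M : V → Finset V := fun u => if u = a then A else if u = b then B else if u = c then C
    else if u = x₀ then W else {u} with hM
  have Ma : M a = A := by simp [hM]
  have Mb : M b = B := by simp [hM, hab.symm]
  have Mc : M c = C := by simp [hM, hac.symm, hbc.symm]
  have Mx : M x₀ = W := by simp [hM, hxa, hxb, hxc]
  have MY : ∀ y ∈ Y, y ≠ x₀ → M y = {y} := by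
    intro y hy hyx
    have h1 : y ≠ a := by rintro rfl; exact nY _ hy haN
    have h2 : y ≠ b := by rintro rfl; exact nY _ hy hbN
    have h3 : y ≠ c := by rintro rfl; exact nY _ hy hcN
    simp [hM, h1, h2, h3, hyx]
  have cls : ∀ u ∈ U', u = x₀ ∨ u = a ∨ u = b ∨ u = c ∨ (u ∈ Y ∧ u ≠ x₀) := by
    intro u hu
    by_cases hux : u = x₀
    · exact Or.inl hux
    · rcases hU' u hu with h1 | h1 | h1
      · exact Or.inl h1
      · rw [hNe] at h1
        simp only [mem_insert, mem_singleton] at h1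
        tauto
      · tauto
  have dY : ∀ y ∈ Y, ∀ S : Finset V, S ⊆ K ∪ N → Disjoint {y} S := by
    intro y hy S hS
    rw [Finset.disjoint_singleton_left]
    exact fun hyS => nYKN y hy (hS hyS)
  refine ⟨M, ?_, ?_, ?_⟩
  · intro u hu
    rcases cls u hu with rfl | rfl | rfl | rfl | ⟨h1, h2⟩
    · rw [Mx]
      exact ⟨(hW' hu).2.1, hW.trans hKNU⟩
    · rw [Ma]
      exact ⟨cA, hA.trans hKNU⟩
    · rw [Mb]
      exact ⟨cB, hB.trans hKNU⟩
    · rw [Mc]
      exact ⟨cC, hC.trans hKNU⟩
    · rw [MY u h1 h2]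
      exact ⟨Con.single _ u, by simpa using hYU h1⟩
  · intro u hu v hv huv
    rcases cls u hu with h1 | h1 | h1 | h1 | ⟨h1, h2⟩
    · rw [h1] at hu ⊢
      rw [Mx]
      obtain ⟨k1, k2, k3, k4, k5⟩ := hW' hu
      rcases cls v hv with h3 | h3 | h3 | h3 | ⟨h3, h4⟩
      · exact absurd (h1.trans h3.symm) huv
      · rw [h3, Ma]; exact k3
      · rw [h3, Mb]; exact k4
      · rw [h3, Mc]; exact k5
      · rw [MY v h3 h4]; exact (dY v h3 W hW).symm
    · rw [h1, Ma]
      rcases cls v hv with h3 | h3 | h3 | h3 | ⟨h3, h4⟩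
      · rw [h3] at hv ⊢
        rw [Mx]
        exact (hW' hv).2.2.1.symm
      · exact absurd (h1.trans h3.symm) huv
      · rw [h3, Mb]; exact dAB
      · rw [h3, Mc]; exact dAC
      · rw [MY v h3 h4]; exact (dY v h3 A hA).symm
    · rw [h1, Mb]
      rcases cls v hv with h3 | h3 | h3 | h3 | ⟨h3, h4⟩
      · rw [h3] at hv ⊢
        rw [Mx]
        exact (hW' hv).2.2.2.1.symm
      · rw [h3, Ma]; exact dAB.symm
      · exact absurd (h1.trans h3.symm) huv
      · rw [h3, Mc]; exact dBC
      · rw [MY v h3 h4]; exact (dY v h3 B hB).symm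
    · rw [h1, Mc]
      rcases cls v hv with h3 | h3 | h3 | h3 | ⟨h3, h4⟩
      · rw [h3] at hv ⊢
        rw [Mx]
        exact (hW' hv).2.2.2.2.symm
      · rw [h3, Ma]; exact dAC.symm
      · rw [h3, Mb]; exact dBC.symm
      · exact absurd (h1.trans h3.symm) huv
      · rw [MY v h3 h4]; exact (dY v h3 C hC).symm
    · rw [MY u h1 h2]
      rcases cls v hv with h3 | h3 | h3 | h3 | ⟨h3, h4⟩
      · rw [h3, Mx]; exact dY u h1 W hW
      · rw [h3, Ma]; exact dY u h1 A hA
      · rw [h3, Mb]; exact dY u h1 B hB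
      · rw [h3, Mc]; exact dY u h1 C hC
      · rw [MY v h3 h4]
        simpa using huv
  · intro u hu v hv huv
    have self : ∀ u ∈ U', u ∉ K → u ≠ x₀ → u ∈ M u := by
      intro u hu _ hux
      rcases cls u hu with h1 | h1 | h1 | h1 | ⟨h1, h2⟩
      · exact absurd h1 hux
      · rw [h1, Ma]; exact haA
      · rw [h1, Mb]; exact hbB
      · rw [h1, Mc]; exact hcC
      · rw [MY u h1 h2]; simp
    rcases hadj u v huv with ⟨k1, k2, k3, k4, k5⟩ | ⟨rfl, rfl, k⟩ | ⟨rfl, rfl, k⟩ | ⟨rfl, rfl, k⟩ |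
      ⟨rfl, rfl, k⟩ | ⟨rfl, rfl, k⟩ | ⟨rfl, rfl, k⟩ | ⟨rfl, rfl, k⟩ | ⟨rfl, rfl, k⟩ |
      ⟨rfl, rfl, k⟩ | ⟨rfl, rfl, k⟩ | ⟨rfl, rfl, k⟩ | ⟨rfl, rfl, k⟩
    · exact ⟨u, self u hu k1 k3, v, self v hv k2 k4, k5⟩
    all_goals simp only [Ma, Mb, Mc, Mx]; exact k

/-- Replace one side of a separation by three vertices by a gadget. -/
theorem step_gad (hGEV : GEV) (hGOD : GOD) (hROO : ROO) (h : RG U w r) (hr : 0 < r)
    (h3 : C3 U w) {K : Finset V} (hK : K ⊆ U) (hK2 : 2 ≤ K.card) (hN3 : (nb (Adj w) K).card = 3)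
    (hY : (U \ (K ∪ nb (Adj w) K)).Nonempty) (nc : ¬ Col (del w K) r) : Stp U w r := by
  set N := nb (Adj w) K with hN
  set Y := U \ (K ∪ N) with hYd
  have hNU : N ⊆ U := nb_sub h K
  have hKN : Disjoint K N := nb_disj _ K
  have hYU : Y ⊆ U := Finset.sdiff_subset
  have hYKN : Disjoint Y (K ∪ N) := Finset.sdiff_disjoint
  have hYK : Disjoint Y K := Finset.disjoint_of_subset_right Finset.subset_union_left hYKN
  have hYN : Disjoint Y N := Finset.disjoint_of_subset_right Finset.subset_union_right hYKN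
  have hroo := hROO V (Adj w) K N (adj_symm h) hN3 hKN hK2 (by
    intro K' hK' hcK'
    refine ⟨?_, ?_⟩
    · intro v hv
      rw [mem_nb] at hv
      obtain ⟨hv1, s, hs, hsv⟩ := hv
      by_cases hvK : v ∈ K
      · exact mem_union.mpr (Or.inl hvK)
      · exact mem_union.mpr (Or.inr (mem_nb.mpr ⟨hvK, s, hK' hs, hsv⟩))
    · refine h3 K' (hK'.trans hK) hcK'.1 ?_
      intro he
      obtain ⟨y, hy⟩ := hY
      have hyU := hYU hy
      rw [← he, mem_union] at hyU
      rcases hyU with h1 | h1
      · exact Finset.disjoint_left.mp hYK hy (hK' h1)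
      · rw [mem_nb] at h1
        obtain ⟨hv1, s, hs, hsv⟩ := h1
        have hyK : y ∉ K := Finset.disjoint_left.mp hYK hy
        exact Finset.disjoint_left.mp hYN hy (mem_nb.mpr ⟨hyK, s, hK' hs, hsv⟩))
  obtain ⟨a, b, c, hNe, hab, hac, hbc, W, A, B, C, hW, hA, hB, hC, cW, cA, cB, cC, dWA, dWB, dWC,
    dAB, dAC, dBC, haA, hbB, hcC, tWA, tWB, tWC, tBC⟩ := hroo
  have haN : a ∈ N := by rw [hNe]; simp
  have hbN : b ∈ N := by rw [hNe]; simp
  have hcN : c ∈ N := by rw [hNe]; simp
  have hsep : Sep U w K Y a b c := by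
    refine ⟨hab, hac, hbc, ?_, hYK.symm, Finset.disjoint_right.mp hKN haN,
      Finset.disjoint_right.mp hKN hbN, Finset.disjoint_right.mp hKN hcN,
      Finset.disjoint_right.mp hYN haN, Finset.disjoint_right.mp hYN hbN,
      Finset.disjoint_right.mp hYN hcN, ?_⟩
    · rw [← hNe]
      ext v
      simp only [hYd, mem_union, mem_sdiff, not_or]
      constructor
      · intro hv
        by_cases h1 : v ∈ K
        · exact Or.inl (Or.inl h1)
        · by_cases h2 : v ∈ N
          · exact Or.inr h2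
          · exact Or.inl (Or.inr ⟨hv, h1, h2⟩)
      · rintro ((h1 | h1) | h1)
        · exact hK h1
        · exact h1.1
        · exact hNU h1
    · intro x hx y hy
      by_contra hne
      have hyK : y ∉ K := Finset.disjoint_left.mp hYK hy
      exact Finset.disjoint_left.mp hYN hy (mem_nb.mpr ⟨hyK, x, hx, hne⟩)
  have hUKcard : (U \ K).card = U.card - K.card := Finset.card_sdiff_of_subset hK
  have hKle : K.card ≤ U.card := Finset.card_le_card hK
  have hUKN : ∀ u ∈ U \ K, u ∈ N ∨ u ∈ Y := by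
    intro u hu
    rw [mem_sdiff] at hu
    by_cases h1 : u ∈ N
    · exact Or.inl h1
    · refine Or.inr ?_
      rw [hYd, mem_sdiff, mem_union]
      tauto
  have hR := adj_symm h
  obtain ⟨x₀, hx₀⟩ : K.Nonempty := Finset.card_pos.mp (by omega)
  have hxa : x₀ ≠ a := by rintro rfl; exact Finset.disjoint_left.mp hKN hx₀ haN
  have hxb : x₀ ≠ b := by rintro rfl; exact Finset.disjoint_left.mp hKN hx₀ hbN
  have hxc : x₀ ≠ c := by rintro rfl; exact Finset.disjoint_left.mp hKN hx₀ hcN
  rcases Nat.even_or_odd K.card with hKe | hKo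
  · obtain ⟨n₁, n₂, n₃, hrg⟩ := hGEV V U K Y w r a b c h hr hsep hKe
    refine ⟨U \ K, _, r, le_rfl, Finset.sdiff_subset, by omega, hrg, ?_, ?_⟩
    · intro hc
      refine nc (Col.sub hc (fun u v => ?_) (del_symm h K))
      omega
    · have cAW : Con (Adj w) (A ∪ W) := Con.union hR cA cW (Or.inl (Tch.symm hR tWA))
      have tAB : Tch (Adj w) (A ∪ W) B :=
        Tch.mono Finset.subset_union_right (Finset.Subset.refl _) tWB
      have tAC : Tch (Adj w) (A ∪ W) C :=
        Tch.mono Finset.subset_union_right (Finset.Subset.refl _) tWC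
      refine mnr_gad (x₀ := x₀) (W := W) hK hNU hYU hNe hab hac hbc hxa hxb hxc hYKN hW
        (Finset.union_subset hA hW) hB hC cAW cB cC (Finset.disjoint_union_left.mpr ⟨dAB, dWB⟩)
        (Finset.disjoint_union_left.mpr ⟨dAC, dWC⟩) dBC (mem_union.mpr (Or.inl haA)) hbB hcC
        ?_ ?_ ?_
      · intro hx
        exact absurd hx₀ (mem_sdiff.mp hx).2
      · intro u hu
        exact Or.inr (hUKN u hu)
      · intro u v huv
        by_cases k0 : del w K u v = 0
        · by_cases k1 : edg a b n₁ u v = 0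
          · by_cases k2 : edg a c n₂ u v = 0
            · have k3 : edg b c n₃ u v ≠ 0 := by
                intro k3
                apply huv
                rw [k0, k1, k2, k3]
              rcases edg_ne k3 with ⟨e1, e2⟩ | ⟨e1, e2⟩
              · right; right; right; right; right; left
                exact ⟨e1, e2, tBC⟩
              · right; right; right; right; right; right; left
                exact ⟨e1, e2, Tch.symm hR tBC⟩
            · rcases edg_ne k2 with ⟨e1, e2⟩ | ⟨e1, e2⟩
              · right; right; right; left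
                exact ⟨e1, e2, tAC⟩
              · right; right; right; right; left
                exact ⟨e1, e2, Tch.symm hR tAC⟩
          · rcases edg_ne k1 with ⟨e1, e2⟩ | ⟨e1, e2⟩
            · right; left
              exact ⟨e1, e2, tAB⟩
            · right; right; left
              exact ⟨e1, e2, Tch.symm hR tAB⟩
        · left
          obtain ⟨d1, d2, d3⟩ := del_ne k0
          refine ⟨d1, d2, ?_, ?_, d3⟩
          · rintro rfl; exact d1 hx₀
          · rintro rfl; exact d2 hx₀
  · have hK3 : 3 ≤ K.card := by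
      obtain ⟨k, hk⟩ := hKo
      omega
    have hxUK : x₀ ∉ U \ K := fun hh => (mem_sdiff.mp hh).2 hx₀
    obtain ⟨n₁, n₂, n₃, n₄, hrg⟩ := hGOD V U K Y w r a b c x₀ h hr hsep hKo hx₀
    refine ⟨insert x₀ (U \ K), _, r, le_rfl,
      Finset.insert_subset (hK hx₀) Finset.sdiff_subset, ?_, hrg, ?_, ?_⟩
    · rw [Finset.card_insert_of_notMem hxUK]
      omega
    · intro hc
      refine nc (Col.sub hc (fun u v => ?_) (del_symm h K))
      omega
    · refine mnr_gad (x₀ := x₀) (W := W) hK hNU hYU hNe hab hac hbc hxa hxb hxc hYKN hW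
        hA hB hC cA cB cC dAB dAC dBC haA hbB hcC ?_ ?_ ?_
      · intro _
        exact ⟨fun hh => Finset.disjoint_left.mp hYK hh hx₀, cW, dWA, dWB, dWC⟩
      · intro u hu
        rcases Finset.mem_insert.mp hu with h1 | h1
        · exact Or.inl h1
        · exact Or.inr (hUKN u h1)
      · intro u v huv
        by_cases k0 : del w K u v = 0
        · by_cases k1 : edg x₀ a n₁ u v = 0
          · by_cases k2 : edg x₀ b n₂ u v = 0
            · by_cases k3 : edg x₀ c n₃ u v = 0
              · have k4 : edg b c n₄ u v ≠ 0 := by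
                  intro k4
                  apply huv
                  rw [k0, k1, k2, k3, k4]
                rcases edg_ne k4 with ⟨e1, e2⟩ | ⟨e1, e2⟩
                · right; right; right; right; right; left
                  exact ⟨e1, e2, tBC⟩
                · right; right; right; right; right; right; left
                  exact ⟨e1, e2, Tch.symm hR tBC⟩
              · rcases edg_ne k3 with ⟨e1, e2⟩ | ⟨e1, e2⟩
                · right; right; right; right; right; right; right; right; right; right; right; left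
                  exact ⟨e1, e2, tWC⟩
                · right; right; right; right; right; right; right; right; right; right; right; right
                  exact ⟨e1, e2, Tch.symm hR tWC⟩
            · rcases edg_ne k2 with ⟨e1, e2⟩ | ⟨e1, e2⟩
              · right; right; right; right; right; right; right; right; right; left
                exact ⟨e1, e2, tWB⟩
              · right; right; right; right; right; right; right; right; right; right; left
                exact ⟨e1, e2, Tch.symm hR tWB⟩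
          · rcases edg_ne k1 with ⟨e1, e2⟩ | ⟨e1, e2⟩
            · right; right; right; right; right; right; right; left
              exact ⟨e1, e2, tWA⟩
            · right; right; right; right; right; right; right; right; left
              exact ⟨e1, e2, Tch.symm hR tWA⟩
        · left
          obtain ⟨d1, d2, d3⟩ := del_ne k0
          refine ⟨d1, d2, ?_, ?_, d3⟩
          · rintro rfl; exact d1 hx₀
          · rintro rfl; exact d2 hx₀

theorem step_i4 (hGEV : GEV) (hGOD : GOD) (hROO : ROO) (h : RG U w r) (hr : 0 < r)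
    (nc : ¬ Col w r) (h3 : C3 U w) (hi : ¬ I4 U w) : Stp U w r := by
  unfold I4 at hi
  push Not at hi
  obtain ⟨K, hK, hK2, hY2, hN4⟩ := hi
  set N := nb (Adj w) K with hN
  set Y := U \ (K ∪ N) with hYd
  have hNU : N ⊆ U := nb_sub h K
  have hKN : Disjoint K N := nb_disj _ K
  have hYU : Y ⊆ U := Finset.sdiff_subset
  have hYKN : Disjoint Y (K ∪ N) := Finset.sdiff_disjoint
  have hYK : Disjoint Y K := Finset.disjoint_of_subset_right Finset.subset_union_left hYKN
  have hYN : Disjoint Y N := Finset.disjoint_of_subset_right Finset.subset_union_right hYKN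
  have hKne : K.Nonempty := Finset.card_pos.mp (by omega)
  have hYne : Y.Nonempty := Finset.card_pos.mp (by omega)
  have hN3 : N.card = 3 := by
    have := h3 K hK hKne (by
      intro he
      obtain ⟨y, hy⟩ := hYne
      exact Finset.disjoint_left.mp hYKN hy (by rw [he]; exact hYU hy))
    rw [← hN] at this
    omega
  obtain ⟨a, b, c, hab, hac, hbc, hNe⟩ := Finset.card_eq_three.mp hN3
  have haN : a ∈ N := by rw [hNe]; simp
  have hbN : b ∈ N := by rw [hNe]; simp
  have hcN : c ∈ N := by rw [hNe]; simp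
  have hzero : ∀ x ∈ K, ∀ y ∈ Y, w x y = 0 := by
    intro x hx y hy
    by_contra hne
    have hyK : y ∉ K := Finset.disjoint_left.mp hYK hy
    exact Finset.disjoint_left.mp hYN hy (mem_nb.mpr ⟨hyK, x, hx, hne⟩)
  have hsep : Sep U w K Y a b c := by
    refine ⟨hab, hac, hbc, ?_, hYK.symm, Finset.disjoint_right.mp hKN haN,
      Finset.disjoint_right.mp hKN hbN, Finset.disjoint_right.mp hKN hcN,
      Finset.disjoint_right.mp hYN haN, Finset.disjoint_right.mp hYN hbN,
      Finset.disjoint_right.mp hYN hcN, hzero⟩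
    rw [← hNe]
    ext v
    simp only [hYd, mem_union, mem_sdiff, not_or]
    constructor
    · intro hv
      by_cases h1 : v ∈ K
      · exact Or.inl (Or.inl h1)
      · by_cases h2 : v ∈ N
        · exact Or.inr h2
        · exact Or.inl (Or.inr ⟨hv, h1, h2⟩)
    · rintro ((h1 | h1) | h1)
      · exact hK h1
      · exact h1.1
      · exact hNU h1
  by_cases c2 : Col (del w K) r
  · have c1 : ¬ Col (tch w K) r := fun c1 => nc (gl3 V U K Y w r a b c h hr hsep c1 c2)
    -- the other side
    have hnbY : nb (Adj w) Y ⊆ N := by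
      intro v hv
      rw [mem_nb] at hv
      obtain ⟨hvY, y, hy, hyv⟩ := hv
      have hvU : v ∈ U := h.supp' hyv
      by_contra hvN
      by_cases hvK : v ∈ K
      · apply hyv
        rw [h.symm]
        exact hzero v hvK y hy
      · apply hvY
        rw [hYd, mem_sdiff, mem_union]
        tauto
    have hnbY3 : 3 ≤ (nb (Adj w) Y).card := by
      refine h3 Y hYU hYne ?_
      intro he
      obtain ⟨x, hx⟩ := hKne
      have hxU := hK hx
      rw [← he, mem_union] at hxU
      rcases hxU with h1 | h1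
      · exact Finset.disjoint_left.mp hYK h1 hx
      · exact Finset.disjoint_left.mp hKN hx (hnbY h1)
    have hnbYe : nb (Adj w) Y = N := Finset.eq_of_subset_of_card_le hnbY (by omega)
    refine step_gad hGEV hGOD hROO h hr h3 hYU hY2 (by rw [hnbYe]; exact hN3) ?_ ?_
    · obtain ⟨x, hx⟩ := hKne
      refine ⟨x, ?_⟩
      rw [hnbYe, mem_sdiff, mem_union]
      refine ⟨hK hx, ?_⟩
      rintro (h1 | h1)
      · exact Finset.disjoint_left.mp hYK h1 hx
      · exact Finset.disjoint_left.mp hKN hx h1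
    · intro hc
      refine c1 (Col.sub hc (fun u v => ?_) (tch_symm h K))
      unfold tch del
      by_cases h1 : u ∈ K ∨ v ∈ K
      · rw [if_pos h1]
        by_cases h2 : u ∈ Y ∨ v ∈ Y
        · rw [if_pos h2]
          apply le_of_eq
          rcases h1 with h1 | h1
          · rcases h2 with h2 | h2
            · exact absurd h1 (Finset.disjoint_left.mp hYK h2)
            · exact hzero u h1 v h2
          · rcases h2 with h2 | h2
            · rw [h.symm]
              exact hzero v h1 u h2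
            · exact absurd h1 (Finset.disjoint_left.mp hYK h2)
        · rw [if_neg h2]
      · rw [if_neg h1]
        exact Nat.zero_le _
  · exact step_gad hGEV hGOD hROO h hr h3 hK hK2 hN3 hYne c2

/-- An uncolourable graph has a critical minor. -/
theorem crit_exists (hGEV : GEV) (hGOD : GOD) (hTRG : TRG) (hTCO : TCO) (hXPM : XPM)
    (hROO : ROO) : ∀ (n : ℕ) (U : Finset V) (w : V → V → ℕ) (r : ℕ), U.card + r ≤ n →
    RG U w r → ¬ Col w r → ∃ (U' : Finset V) (w' : V → V → ℕ) (r' : ℕ), r' ≤ r ∧ U' ⊆ U ∧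
      Crit U' w' r' ∧ Mnr (Adj w') U' (Adj w) U := by
  intro n
  induction n with
  | zero =>
    intro U w r hle h nc
    exfalso
    have hr0 : r = 0 := by omega
    subst hr0
    exact nc (col_zero h)
  | succ n ih =>
    intro U w r hle h nc
    have fin : Stp U w r → ∃ (U' : Finset V) (w' : V → V → ℕ) (r' : ℕ), r' ≤ r ∧ U' ⊆ U ∧
      Crit U' w' r' ∧ Mnr (Adj w') U' (Adj w) U := by
      rintro ⟨U₁, w₁, r₁, hr₁, hU₁, hlt, h₁, nc₁, m₁⟩
      obtain ⟨U₂, w₂, r₂, hr₂, hU₂, h₂, m₂⟩ := ih U₁ w₁ r₁ (by omega) h₁ nc₁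
      exact ⟨U₂, w₂, r₂, hr₂.trans hr₁, hU₂.trans hU₁, h₂, Mnr.trans (adj_symm h) m₂ m₁⟩
    rcases Nat.eq_zero_or_pos r with hr0 | hr
    · subst hr0
      exact absurd (col_zero h) nc
    · by_cases hcn : CN U w
      · by_cases hnt : NT U w r
        · by_cases hbd : BD U w r
          · have h10 := ten_le hXPM h hr hnt hbd
            have h3 := three_conn h hr (by omega) hcn hnt
            by_cases hi : I4 U w
            · exact ⟨U, w, r, le_rfl, Finset.Subset.refl U,
                ⟨h, hr, nc, hcn, hnt, hbd, h3, hi, h10⟩, Mnr.refl _ _⟩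
            · exact fin (step_i4 hGEV hGOD hROO h hr nc h3 hi)
          · exact fin (step_bd h hr nc hbd)
        · exact fin (step_nt hTRG hTCO h hr nc hcn hnt)
      · exact fin (step_cn h nc hcn)

end Pool.Agent.Helper37.RG3
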