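import Mathlib
import Pool.Agent.Helper37.RG3.RW
import Pool.Agent.Helper77.RG3.GEV
import Pool.Agent.Helper54.RG3.GOD
import Pool.Agent.Helper31.RG3.TRG
import Pool.Agent.Helper76.RG3.TCO
import Pool.Agent.Helper35.RG3.XPM
import Pool.Agent.Helper70.RG3.Roo
import Pool.Agent.Helper85.RG3.HAM
import Pool.Agent.Helper53.RG3.TEN
import Pool.Agent.Helper22.RG3.PTM
import Pool.Agent.Helper74.RG3.TDM
import Pool.Agent.Helper62.RG3.SNK
import Pool.Agent.Helper33.RG3.BIP
import Pool.Agent.Helper39.RG3.CV1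
import Pool.Agent.Helper25.RG3.CV2
import Pool.Agent.Helper71.RG3.CNN

set_option autoImplicit false
set_option linter.unusedSectionVars false

/-!
Assembly.
-/

namespace Pool.Agent.Helper37.RG3

open Finset

variable {V : Type} [Fintype V] [DecidableEq V] {U : Finset V} {w : V → V → ℕ} {r : ℕ}

theorem crit (h : RG U w r) (nc : ¬ Col w r) : ∃ (U' : Finset V) (w' : V → V → ℕ) (r' : ℕ),
    r' ≤ r ∧ U' ⊆ U ∧ Crit U' w' r' ∧ Mnr (Adj w') U' (Adj w) U :=
  crit_exists Pool.Agent.Helper77.RG3.gev Pool.Agent.Helper54.RG3.god Pool.Agent.Helper31.RG3.trg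
    Pool.Agent.Helper76.RG3.tco Pool.Agent.Helper35.RG3.xpm Pool.Agent.Helper70.RG3.roo _ U w r
    le_rfl h nc

/-- A critical graph with ten vertices has a Petersen minor. -/
theorem pet_ten (h : Crit U w r) (h10 : U.card = 10) : PetM (Adj w) U := by
  obtain ⟨s, rfl⟩ : ∃ s, r = s + 1 := ⟨r - 1, by have := h.pos; omega⟩
  obtain ⟨x, y, hx, hy, hxy, hU, h1, h2, h3⟩ :=
    Pool.Agent.Helper53.RG3.ten Pool.Agent.Helper35.RG3.xpm Pool.Agent.Helper85.RG3.ham V U w s
      h.rg h10 h.nt (by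
        intro m hm
        obtain ⟨X, hX, ho, hlt⟩ := h.bd m hm
        exact ⟨X, hX, ho, by omega⟩)
  exact Pool.Agent.Helper22.RG3.ptm V U (Adj w) x y (adj_symm h.rg) hx hy hxy hU h1 h2 h3

theorem crit_twelve (h : Crit U w r) (hp : ¬ PetM (Adj w) U) : 12 ≤ U.card := by
  have h10 := h.ten
  obtain ⟨k, hk⟩ := h.rg.even_card h.pos
  by_contra hlt
  exact hp (pet_ten h (by omega))

/-- Small bags. -/
theorem small_bags {ι : Type} [Finite ι] {T : SimpleGraph ι} {β : ι → Finset V} (h : RG U w r)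
    (hp : ¬ PetM (Adj w) U) (ht : TD T β (Adj w) U 6 3) : Col w r := by
  by_contra nc
  obtain ⟨U', w', r', -, hU', hc, hm⟩ := crit h nc
  have hp' : ¬ PetM (Adj w') U' := fun hh => hp (PetM.of_mnr (adj_symm h) hm hh)
  have h12 := crit_twelve hc hp'
  have hrg := hc.rg
  obtain ⟨β', ht'⟩ := Pool.Agent.Helper74.RG3.tdm V ι T β (Adj w) (Adj w') U U' 6 3 (adj_symm h)
    (fun u v huv => ⟨h.supp u v huv, h.supp' huv⟩)
    (fun u v huv => ⟨hrg.supp u v huv, hrg.supp' huv⟩) ht hm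
  obtain ⟨t, ht1⟩ := Pool.Agent.Helper62.RG3.snk V ι T β' (Adj w') U' 6 (adj_symm hrg)
    (fun u v huv => ⟨hrg.supp u v huv, hrg.supp' huv⟩) ht' (by omega) hc.i4
  have hb := ht'.bag t
  have hs := ht'.sub t
  refine hc.nc (Pool.Agent.Helper33.RG3.bip Pool.Agent.Helper35.RG3.xpm V U' (β' t) w' r' hrg hs ?_ ?_)
  · rw [Finset.card_sdiff_of_subset hs]
    omega
  · intro u hu v hv
    by_cases huv : u = v
    · rw [huv, hrg.irr]
    · by_contra hne
      exact ht1 u hu v hv huv hne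

end Pool.Agent.Helper37.RG3
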